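import Pool.Agent.TH143.EL.Ell

/-!
# Compositions with elliptic functions and the exponential function
-/

set_option autoImplicit false

open Filter Topology Set

noncomputable section

namespace Pool.Agent.K7.H88.EF

open Pool.Agent.TH143.EL

/-- elliptic functions, with respect to an arbitrary lattice -/
def Elliptic (h : ℂ → ℂ) : Prop :=
  Meromorphic h ∧ ∃ ω₁ ω₂ : ℂ, LinearIndependent ℝ ![ω₁, ω₂] ∧
    (∀ z, h (z + ω₁) = h z) ∧ ∀ z, h (z + ω₂) = h z

/-- the smallest class of functions which contains the constants and `z`, is closed under the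
rational operations, and contains `e^u` and `h ∘ u` for all entire functions `u` of the class and all
elliptic functions `h` -/
inductive EFun : (ℂ → ℂ) → Prop
  | const (c : ℂ) : EFun fun _ => c
  | id : EFun fun z => z
  | add {f g : ℂ → ℂ} : EFun f → EFun g → EFun fun z => f z + g z
  | mul {f g : ℂ → ℂ} : EFun f → EFun g → EFun fun z => f z * g z
  | inv {f : ℂ → ℂ} : EFun f → EFun fun z => (f z)⁻¹
  | exp {u : ℂ → ℂ} : EFun u → Differentiable ℂ u → EFun fun z => Complex.exp (u z)
  | ell {u h : ℂ → ℂ} : EFun u → Differentiable ℂ u → Elliptic h → EFun fun z => h (u z)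

/-- a node: an entire function which is not constant, together with the exponential function or an
elliptic function -/
structure Nd where
  κ : Option PeriodPair
  h : ℂ → ℂ
  u : ℂ → ℂ
  hu : Differentiable ℂ u
  nc : ∀ c, ∃ z, u z ≠ c
  hh : κ.elim (h = Complex.exp) fun L => h ∈ Ell L.ω₁ L.ω₂

theorem mero_ent {u : ℂ → ℂ} (hu : Differentiable ℂ u) : Meromorphic u := fun z =>
  (hu.analyticAt z).meromorphicAt

theorem Nd.mh (nd : Nd) : Meromorphic nd.h := by
  have h1 := nd.hh
  cases hk : nd.κ with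
  | none =>
    rw [hk] at h1
    have h2 : nd.h = Complex.exp := h1
    rw [h2]
    exact mero_ent Complex.differentiable_exp
  | some L =>
    rw [hk] at h1
    exact h1.1

theorem mero_comp_ent {h u : ℂ → ℂ} (hh : Meromorphic h) (hu : Differentiable ℂ u) :
    Meromorphic fun z => h (u z) := fun z =>
  (hh (u z)).comp_analyticAt (g := u) (hu.analyticAt z)

theorem Nd.mero (nd : Nd) : Meromorphic fun z => nd.h (nd.u z) := mero_comp_ent nd.mh nd.hu

/-- the class of a node -/
def Nd.val (nd : Nd) : MK := cl (fun z => nd.h (nd.u z)) nd.mero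

/-- the field generated by nodes -/
def KS (S : Set Nd) : IntermediateField ℂ MK :=
  IntermediateField.adjoin ℂ (insert (cl (fun z => z) (mero_ent differentiable_id)) (Nd.val '' S))

theorem KS_mono {S T : Set Nd} (h : S ⊆ T) : KS S ≤ KS T :=
  IntermediateField.adjoin.mono _ _ _ (insert_subset_insert (image_mono h))

/-- closed sets of nodes -/
def Clo (S : Set Nd) : Prop := ∀ nd ∈ S, cl nd.u (mero_ent nd.hu) ∈ KS S

theorem Clo.union {S T : Set Nd} (hS : Clo S) (hT : Clo T) : Clo (S ∪ T) := by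
  rintro nd (h | h)
  · exact KS_mono subset_union_left (hS nd h)
  · exact KS_mono subset_union_right (hT nd h)

theorem const_or (u : ℂ → ℂ) : (∃ c, ∀ z, u z = c) ∨ ∀ c, ∃ z, u z ≠ c := by
  by_cases h : ∃ c, ∀ z, u z = c
  · exact Or.inl h
  · right
    push Not at h
    exact h

theorem node_step {S : Set Nd} (hf : S.Finite) (hS : Clo S) {κ : Option PeriodPair} {h u : ℂ → ℂ}
    (hu : Differentiable ℂ u) (hk : κ.elim (h = Complex.exp) fun L => h ∈ Ell L.ω₁ L.ω₂)
    (hm : Meromorphic fun z => h (u z)) (hmem : cl u (mero_ent hu) ∈ KS S) :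
    ∃ S' : Set Nd, S'.Finite ∧ Clo S' ∧ cl (fun z => h (u z)) hm ∈ KS S' := by
  rcases const_or u with ⟨c, hc⟩ | hnc
  · refine ⟨S, hf, hS, ?_⟩
    have h1 : cl (fun z => h (u z)) hm = algebraMap ℂ MK (h c) := by
      rw [← cl_const, cl_eq]
      exact Eventually.of_forall fun z => by rw [hc]
    rw [h1]
    exact (KS S).algebraMap_mem _
  · let nd : Nd := ⟨κ, h, u, hu, hnc, hk⟩
    refine ⟨insert nd S, hf.insert _, ?_, ?_⟩
    · rintro x (rfl | hx)
      · exact KS_mono (subset_insert _ _) hmem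
      · exact KS_mono (subset_insert _ _) (hS x hx)
    · exact IntermediateField.subset_adjoin _ _ (Or.inr ⟨nd, mem_insert _ _, rfl⟩)

/-- **the functions of the class are rational functions of finitely many nodes** -/
theorem EFun.nodes {f : ℂ → ℂ} (hf : EFun f) :
    ∃ S : Set Nd, S.Finite ∧ Clo S ∧ ∃ hm : Meromorphic f, cl f hm ∈ KS S := by
  induction hf with
  | const c =>
    refine ⟨∅, finite_empty, fun nd h => h.elim, Meromorphic.const c, ?_⟩
    rw [cl_const]
    exact (KS ∅).algebraMap_mem _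
  | id =>
    exact ⟨∅, finite_empty, fun nd h => h.elim, mero_ent differentiable_id,
      IntermediateField.subset_adjoin _ _ (mem_insert _ _)⟩
  | add _ _ ih1 ih2 =>
    obtain ⟨S, h1, h2, h3, h4⟩ := ih1
    obtain ⟨T, k1, k2, k3, k4⟩ := ih2
    exact ⟨S ∪ T, h1.union k1, h2.union k2, h3.add k3,
      (KS (S ∪ T)).add_mem (KS_mono subset_union_left h4) (KS_mono subset_union_right k4)⟩
  | mul _ _ ih1 ih2 =>
    obtain ⟨S, h1, h2, h3, h4⟩ := ih1
    obtain ⟨T, k1, k2, k3, k4⟩ := ih2
    exact ⟨S ∪ T, h1.union k1, h2.union k2, h3.mul k3,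
      (KS (S ∪ T)).mul_mem (KS_mono subset_union_left h4) (KS_mono subset_union_right k4)⟩
  | inv _ ih =>
    obtain ⟨S, h1, h2, h3, h4⟩ := ih
    refine ⟨S, h1, h2, h3.inv, ?_⟩
    have h5 := (KS S).inv_mem h4
    rw [cl_inv] at h5
    exact h5
  | @exp u _ hu ih =>
    obtain ⟨S, h1, h2, h3, h4⟩ := ih
    have hm : Meromorphic fun z => Complex.exp (u z) :=
      mero_comp_ent (mero_ent Complex.differentiable_exp) hu
    obtain ⟨T, k1, k2, k3⟩ := node_step h1 h2 (κ := none) hu rfl hm h4
    exact ⟨T, k1, k2, hm, k3⟩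
  | @ell u h _ hu he ih =>
    obtain ⟨S, h1, h2, h3, h4⟩ := ih
    obtain ⟨hh, ω₁, ω₂, hind, p1, p2⟩ := he
    have hm : Meromorphic fun z => h (u z) := mero_comp_ent hh hu
    obtain ⟨T, k1, k2, k3⟩ := node_step h1 h2 (κ := some ⟨ω₁, ω₂, hind⟩) hu ⟨hh, p1, p2⟩ hm h4
    exact ⟨T, k1, k2, hm, k3⟩

theorem nodes_family {ι : Type} [Finite ι] {f : ι → ℂ → ℂ} (hf : ∀ a, EFun (f a)) :
    ∃ S : Set Nd, S.Finite ∧ Clo S ∧ ∀ a, ∃ hm : Meromorphic (f a), cl (f a) hm ∈ KS S := by
  choose S h1 h2 h3 h4 using fun a => (hf a).nodes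
  refine ⟨⋃ a, S a, Set.finite_iUnion h1, ?_, fun a => ⟨h3 a, KS_mono (subset_iUnion S a) (h4 a)⟩⟩
  intro nd hnd
  obtain ⟨a, ha⟩ := mem_iUnion.1 hnd
  exact KS_mono (subset_iUnion S a) (h2 a nd ha)

/-- the values of the nodes at a point, together with the point -/
def yv {ι : Type} (h u : ι → ℂ → ℂ) (z : ℂ) : Option ι → ℂ :=
  fun o => o.elim z fun i => h i (u i z)

/-- **the functions of the class in terms of polynomials** -/
theorem exists_polys {κ : Type} [Finite κ] {f : κ → ℂ → ℂ} (hf : ∀ a, EFun (f a)) :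
    ∃ (m : ℕ) (nd : Fin m → Nd) (P Q : κ → MvPolynomial (Option (Fin m)) ℂ)
      (R T : Fin m → MvPolynomial (Option (Fin m)) ℂ),
      (∀ a, ∀ᶠ z in codiscrete ℂ,
        MvPolynomial.eval (yv (fun i => (nd i).h) (fun i => (nd i).u) z) (Q a) ≠ 0 ∧
        f a z * MvPolynomial.eval (yv (fun i => (nd i).h) (fun i => (nd i).u) z) (Q a) =
          MvPolynomial.eval (yv (fun i => (nd i).h) (fun i => (nd i).u) z) (P a)) ∧
      ∀ i, ∀ᶠ z in codiscrete ℂ,
        MvPolynomial.eval (yv (fun i => (nd i).h) (fun i => (nd i).u) z) (T i) ≠ 0 ∧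
        (nd i).u z * MvPolynomial.eval (yv (fun i => (nd i).h) (fun i => (nd i).u) z) (T i) =
          MvPolynomial.eval (yv (fun i => (nd i).h) (fun i => (nd i).u) z) (R i) := by
  classical
  obtain ⟨S, hfin, hclo, hmem⟩ := nodes_family hf
  have hfin' : Finite S := hfin
  obtain ⟨m, ⟨φ⟩⟩ := Finite.exists_equiv_fin S
  let nd : Fin m → Nd := fun i => (φ.symm i : Nd)
  let w : Option (Fin m) → ℂ → ℂ := fun o => o.elim (fun z => z) fun i z => (nd i).h ((nd i).u z)
  have hw : ∀ o, Meromorphic (w o) := by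
    intro o
    cases o with
    | none => exact mero_ent differentiable_id
    | some i => exact (nd i).mero
  have hKS : KS S = IntermediateField.adjoin ℂ (Set.range fun o => cl (w o) (hw o)) := by
    unfold KS
    congr 1
    ext x
    constructor
    · rintro (rfl | ⟨y, hy, rfl⟩)
      · exact ⟨none, rfl⟩
      · refine ⟨some (φ ⟨y, hy⟩), ?_⟩
        have h1 : nd (φ ⟨y, hy⟩) = y := by
          simp [nd]
        change (nd (φ ⟨y, hy⟩)).val = y.val
        rw [h1]
    · rintro ⟨o, rfl⟩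
      cases o with
      | none => exact Or.inl rfl
      | some i => exact Or.inr ⟨nd i, (φ.symm i).2, rfl⟩
  have hyv : ∀ z, yv (fun i => (nd i).h) (fun i => (nd i).u) z = fun o => w o z := by
    intro z
    funext o
    cases o <;> rfl
  have key : ∀ (g : ℂ → ℂ) (hg : Meromorphic g), cl g hg ∈ KS S →
      ∃ P Q : MvPolynomial (Option (Fin m)) ℂ, ∀ᶠ z in codiscrete ℂ,
        MvPolynomial.eval (yv (fun i => (nd i).h) (fun i => (nd i).u) z) Q ≠ 0 ∧
        g z * MvPolynomial.eval (yv (fun i => (nd i).h) (fun i => (nd i).u) z) Q =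
          MvPolynomial.eval (yv (fun i => (nd i).h) (fun i => (nd i).u) z) P := by
    intro g hg h
    rw [hKS, IntermediateField.mem_adjoin_range_iff] at h
    obtain ⟨r, s, hrs⟩ := h
    have hr := aeval_cl w hw r
    have hs := aeval_cl w hw s
    by_cases h0 : MvPolynomial.aeval (fun o => cl (w o) (hw o)) s = 0
    · rw [h0, div_zero, cl_eq_zero] at hrs
      refine ⟨0, 1, ?_⟩
      filter_upwards [hrs] with z hz
      rw [hz, map_one, map_zero, zero_mul]
      exact ⟨one_ne_zero, rfl⟩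
    · have h1 : cl g hg * MvPolynomial.aeval (fun o => cl (w o) (hw o)) s =
          MvPolynomial.aeval (fun o => cl (w o) (hw o)) r := by
        rw [hrs, div_mul_cancel₀ _ h0]
      rw [hr, hs, cl_mul, cl_eq] at h1
      rw [hs] at h0
      have h2 := mero_ne (mero_eval hw s) (fun h3 => h0 (cl_eq_zero.2 h3))
      refine ⟨r, s, ?_⟩
      filter_upwards [h1, h2] with z h3 h4
      rw [hyv]
      exact ⟨h4, h3⟩
  choose hm hmem using hmem
  choose P Q hPQ using fun a => key (f a) (hm a) (hmem a)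
  choose R T hRT using fun i => key (nd i).u (mero_ent (nd i).hu) (hclo (nd i) (φ.symm i).2)
  exact ⟨m, nd, P, Q, R, T, hPQ, hRT⟩

end Pool.Agent.K7.H88.EF
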