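import Pool.Agent.TH143.EL.Wp

/-!
# Elliptic flows through a point, and curves in projective algebraic sets
-/

set_option autoImplicit false

open Filter Topology Set MvPolynomial
open scoped LinearAlgebra.Projectivization

noncomputable section

namespace Pool.Agent.K7.H88.EF

open Pool.Agent.TH143.EL

variable {N : ℕ} {F : IntermediateField ℚ ℂ} {σ : Type} {δ : Derivation ℚ ℂ ℂ}

/-- there is a family of elliptic functions through the point `y` which satisfies all the algebraic
equations of `y` over `F` and has the direction `δ y` -/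
def EFl (F : IntermediateField ℚ ℂ) (y : σ → ℂ) (δ : Derivation ℚ ℂ ℂ) : Prop :=
  ∃ (ω₁ ω₂ : ℂ) (H : σ → ℂ → ℂ) (t₀ c : ℂ), LinearIndependent ℝ ![ω₁, ω₂] ∧ c ≠ 0 ∧
    (∀ i, Meromorphic (H i)) ∧ (∀ i z, H i (z + ω₁) = H i z) ∧ (∀ i z, H i (z + ω₂) = H i z) ∧
    (∀ i, AnalyticAt ℂ (H i) t₀) ∧ (∀ i, H i t₀ = y i) ∧ (∀ i, deriv (H i) t₀ = c * δ (y i)) ∧
    ∀ P : MvPolynomial σ F, aeval y P = 0 → ∀ᶠ t in codiscrete ℂ, aeval (fun i => H i t) P = 0

theorem aeval_eq_eval' (v : σ → ℂ) (P : MvPolynomial σ F) :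
    aeval v P = eval v (map (algebraMap F ℂ) P) := by
  rw [aeval_def, eval_map]

theorem mero_aeval [Fintype σ] {H : σ → ℂ → ℂ} (hH : ∀ i, Meromorphic (H i))
    (P : MvPolynomial σ F) : Meromorphic fun z => aeval (fun i => H i z) P := by
  simp only [aeval_eq_eval']
  exact mero_eval hH _

theorem an_aeval {H : σ → ℂ → ℂ} {t : ℂ} (hH : ∀ i, AnalyticAt ℂ (H i) t)
    (P : MvPolynomial σ F) : AnalyticAt ℂ (fun z => aeval (fun i => H i z) P) t := by
  induction P using MvPolynomial.induction_on with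
  | C a =>
    simp only [aeval_C]
    exact analyticAt_const
  | add p q hp hq =>
    simp only [map_add]
    exact hp.add hq
  | mul_X p s hp =>
    simp only [map_mul, aeval_X]
    exact hp.mul (hH s)

theorem deriv_aeval {H : σ → ℂ → ℂ} {t c : ℂ} {y : σ → ℂ} (hH : ∀ i, AnalyticAt ℂ (H i) t)
    (h0 : ∀ i, H i t = y i) (hd : ∀ i, deriv (H i) t = c * δ (y i)) (hF : ∀ x ∈ F, δ x = 0)
    (P : MvPolynomial σ F) :
    deriv (fun z => aeval (fun i => H i z) P) t = c * δ (aeval y P) := by
  induction P using MvPolynomial.induction_on with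
  | C a =>
    simp only [aeval_C, deriv_const']
    rw [show algebraMap F ℂ a = (a : ℂ) from rfl, hF _ a.2, mul_zero]
  | add p q hp hq =>
    simp only [map_add]
    rw [deriv_fun_add (an_aeval hH p).differentiableAt (an_aeval hH q).differentiableAt, hp, hq,
      mul_add]
  | mul_X p s hp =>
    simp only [map_mul, aeval_X]
    rw [deriv_fun_mul (an_aeval hH p).differentiableAt (hH s).differentiableAt, hp, hd, h0,
      Derivation.leibniz, smul_eq_mul, smul_eq_mul]
    have h1 : (fun i => H i t) = y := funext h0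
    rw [h1]
    ring

/-- **flows and maps from tori** -/
theorem step_torus {I I' : Ideal (MvPolynomial (Fin (N + 1)) ℂ)} (hT : TorusMapsIn I I')
    {S : Finset (MvPolynomial (Fin (N + 1)) F)}
    (hS : ∀ v : Fin (N + 1) → ℂ, (∀ G ∈ I, (∃ d, G.IsHomogeneous d) → eval v G = 0) ↔
      ∀ G ∈ S, aeval v G = 0) [Fintype σ] {y : σ → ℂ} (hF : ∀ x ∈ F, δ x = 0) (he : EFl F y δ)
    (A : Fin (N + 1) → MvPolynomial σ F) (hA0 : (fun a => aeval y (A a)) ≠ 0)
    (hAI : ∀ G ∈ S, aeval (fun a => aeval y (A a)) G = 0) :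
    (∀ p, Rep p (fun a => aeval y (A a)) → InV I' p) ∨
      ∀ a b, δ (aeval y (A a)) * aeval y (A b) = aeval y (A a) * δ (aeval y (A b)) := by
  classical
  obtain ⟨ω₁, ω₂, H, t₀, c, hind, hc, hm, hp1, hp2, han, h0, hd, hfl⟩ := he
  have hH0 : (fun i => H i t₀) = y := funext h0
  let h : Fin (N + 1) → ℂ → ℂ := fun a t => aeval (fun i => H i t) (A a)
  have hhm : ∀ a, Meromorphic (h a) := fun a => mero_aeval hm (A a)
  have hha : ∀ a, AnalyticAt ℂ (h a) t₀ := fun a => an_aeval han (A a)
  have hh0 : ∀ a, h a t₀ = aeval y (A a) := fun a => by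
    change aeval (fun i => H i t₀) (A a) = _
    rw [hH0]
  have hh0' : (fun a => h a t₀) = fun a => aeval y (A a) := funext hh0
  have hhp1 : ∀ a z, h a (z + ω₁) = h a z := fun a z => by
    change aeval (fun i => H i (z + ω₁)) (A a) = aeval (fun i => H i z) (A a)
    simp only [hp1]
  have hhp2 : ∀ a z, h a (z + ω₂) = h a z := fun a z => by
    change aeval (fun i => H i (z + ω₂)) (A a) = aeval (fun i => H i z) (A a)
    simp only [hp2]
  have hne : ∃ j, ¬ ∀ᶠ z in codiscrete ℂ, h j z = 0 := by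
    obtain ⟨j, hj⟩ := Function.ne_iff.1 hA0
    refine ⟨j, fun hcon => hj ?_⟩
    have h1 := eq_of_codis (f := h j) (g := fun _ => 0) hcon (hha j).continuousAt
      continuousAt_const
    rw [hh0] at h1
    exact h1
  obtain ⟨g, hg, hgr⟩ := exists_holMap hhm hne
  have hgc : ∀ᶠ z in codiscrete ℂ, Rep (g z) fun j => h j z := by
    have h1 : ∀ᶠ z in codiscrete ℂ, ∀ j, AnalyticAt ℂ (h j) z :=
      eventually_all.2 fun j => mero_an (hhm j)
    filter_upwards [h1, codis_ne_zero hhm hne] with z hz1 hz2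
    exact hgr z hz1 hz2
  have hg0 : Rep (g t₀) fun a => aeval y (A a) := by
    have h1 := hgr t₀ hha (by rw [hh0']; exact hA0)
    rwa [hh0'] at h1
  have hper : ∀ w, (∀ a z, h a (z + w) = h a z) → ∀ z, g (z + w) = g z := by
    intro w hw z
    apply holMap_ext (hg.shift w) hg
    filter_upwards [codis_ev (codis_shift w hgc) z, codis_ev hgc z] with x h1 h2
    simp only [hw] at h1
    exact rep_eq h1 h2
  have hv : ∀ G ∈ S, ∀ᶠ t in codiscrete ℂ, aeval (fun a => h a t) G = 0 := by
    intro G hG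
    have h1 := hfl (bind₁ A G) (by rw [aeval_bind₁]; exact hAI G hG)
    filter_upwards [h1] with t ht
    rw [aeval_bind₁] at ht
    exact ht
  have hvS : ∀ᶠ t in codiscrete ℂ, ∀ G ∈ S, aeval (fun a => h a t) G = 0 := by
    rw [Finset.eventually_all]
    exact hv
  have hI : ∀ z, InV I (g z) := by
    intro z
    apply inV_of_punct hg
    filter_upwards [codis_ev hgc z, codis_ev hvS z] with x h1 h2
    rw [inV_iff h1]
    exact (hS _).2 h2
  by_cases hnc : ∃ z w, g z ≠ g w
  · left
    intro p hp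
    rw [rep_eq hp hg0]
    exact hT ω₁ ω₂ hind g hg (hper ω₁ hhp1) (hper ω₂ hhp2) hI hnc t₀
  · right
    push Not at hnc
    intro a b
    have h1 : ∀ᶠ z in 𝓝 t₀, Rep (g z) fun j => h j z := by
      obtain ⟨j, hj⟩ := Function.ne_iff.1 hA0
      have hj' : h j t₀ ≠ 0 := by
        rw [hh0]
        exact hj
      have h2 : ∀ᶠ z in 𝓝 t₀, ∀ j, AnalyticAt ℂ (h j) z :=
        eventually_all.2 fun j => (hha j).eventually_analyticAt
      filter_upwards [h2, (hha j).continuousAt.eventually_ne hj'] with z h3 h4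
      exact hgr z h3 fun h5 => h4 (congrFun h5 j)
    have h2 : (fun z => h a z * aeval y (A b)) =ᶠ[𝓝 t₀] fun z => h b z * aeval y (A a) := by
      filter_upwards [h1] with z hz
      rw [hnc z t₀] at hz
      have h3 := ((rep_iff hg0).1 hz).2 a b
      linear_combination -h3
    have h3 := h2.deriv_eq
    rw [deriv_mul_const (hha a).differentiableAt, deriv_mul_const (hha b).differentiableAt,
      deriv_aeval han h0 hd hF, deriv_aeval han h0 hd hF] at h3
    apply mul_left_cancel₀ hc
    linear_combination h3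

end Pool.Agent.K7.H88.EF
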