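import Pool.Agent.K7.H88.EF.Gen2
import Pool.Agent.Y377.IL.AllC
import Pool.Agent.TH143.EL.Exa

/-!
# Entire curves given by compositions with elliptic functions
-/

set_option autoImplicit false

open Filter Topology Set MvPolynomial
open scoped PeriodPair LinearAlgebra.Projectivization

noncomputable section

namespace Pool.Agent.K7.H88.EF

open Pool.Agent.TH143.EL (Ell mero_id freq_of_ev mero_an mero_ne codis_countable codis_pre
  TorusMapsIn Rep InV HolMap inV_of_punct codis_ev rep_smul poly_codis mem_adjoin_iff trOne_poly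
  rep_rep rep_iff inV_iff)
open Pool.Agent.TH813.Rel (DF)
open Pool.Agent.TH813.G (NoHom)
open Pool.Agent.Y776.Fam (exists_cf)
open Pool.Agent.Y776.Cv (countable_Gp Gp)
open Pool.Agent.Y377.IL (AlgRatio AlgebraicOver algRatio_rep iter_main iterated_of_algebraic
  db_of_trOne IteratedOver)

variable {N : ℕ}

/-- finitely many forms -/
theorem exists_forms {n : ℕ} (I : Ideal (MvPolynomial (Fin n) ℂ)) :
    ∃ S : Finset (MvPolynomial (Fin n) ℂ), ∀ w : Fin n → ℂ,
      (∀ G ∈ I, (∃ d, G.IsHomogeneous d) → eval w G = 0) ↔ ∀ G ∈ S, eval w G = 0 := by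
  let H : Set (MvPolynomial (Fin n) ℂ) := {G | G ∈ I ∧ ∃ d, G.IsHomogeneous d}
  have h1 : (Submodule.span (MvPolynomial (Fin n) ℂ) H).FG := IsNoetherian.noetherian _
  obtain ⟨S, hSH, hS⟩ := (Submodule.fg_span_iff_fg_span_finset_subset H).1 h1
  refine ⟨S, fun w => ⟨fun h G hG => h G (hSH hG).1 (hSH hG).2, fun h G hG hd => ?_⟩⟩
  have h2 : Submodule.span (MvPolynomial (Fin n) ℂ) (S : Set (MvPolynomial (Fin n) ℂ)) ≤
      RingHom.ker (eval w) := Ideal.span_le.2 fun G hG => h G hG
  have h3 : G ∈ Submodule.span (MvPolynomial (Fin n) ℂ) H := Submodule.subset_span ⟨hG, hd⟩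
  rw [hS] at h3
  exact h2 h3

theorem zero_of_unc {φ : ℂ → ℂ} (hφ : Meromorphic φ) {s : Set ℂ} (hs : ¬ s.Countable)
    (h : ∀ z ∈ s, φ z = 0) : ∀ᶠ z in codiscrete ℂ, φ z = 0 := by
  by_contra hne
  have h1 := mero_ne hφ hne
  have h2 : ({z | φ z ≠ 0}ᶜ).Countable := codis_countable h1
  exact hs (h2.mono fun z hz => fun h3 => h3 (h z hz))

/-- algebraic functions -/
theorem algRatio_of_poly {P : MvPolynomial (Fin 2) ℂ} (hP : P ≠ 0) {u w : ℂ → ℂ}
    (h : ∀ᶠ z in codiscrete ℂ, w z ≠ 0 ∧ eval ![z, u z / w z] P = 0) :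
    AlgRatio (Algebra.adjoin ℂ {fun z : ℂ => z}) u w := by
  classical
  let m := P.support.sup fun s => s 1
  let p : ℕ → Polynomial ℂ := fun k => ∑ s ∈ P.support.filter (fun s => s 1 = k),
    Polynomial.monomial (s 0) (P.coeff s)
  have hm : ∀ s ∈ P.support, s 1 ≤ m := fun s hs => Finset.le_sup (f := fun s => s 1) hs
  refine ⟨m, fun k z => (p k).eval z, fun k => mem_adjoin_iff.2 ⟨p k, fun z => rfl⟩, ?_, ?_⟩
  · obtain ⟨s₀, hs₀⟩ := Finset.nonempty_iff_ne_empty.2 (fun h0 => hP (support_eq_empty.1 h0))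
    refine ⟨s₀ 1, hm s₀ hs₀, fun hcon => ?_⟩
    have h1 : p (s₀ 1) ≠ 0 := by
      intro h0
      have h2 := congrArg (fun q => Polynomial.coeff q (s₀ 0)) h0
      simp only [p, Polynomial.finsetSum_coeff, Polynomial.coeff_monomial,
        Polynomial.coeff_zero] at h2
      rw [Finset.sum_eq_single s₀] at h2
      · rw [if_pos rfl] at h2
        exact (mem_support_iff.1 hs₀) h2
      · intro s hs hne
        rw [if_neg]
        intro h3
        apply hne
        have h4 := (Finset.mem_filter.1 hs).2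
        ext i
        fin_cases i
        · exact h3
        · exact h4
      · intro h3
        exact (h3 (Finset.mem_filter.2 ⟨hs₀, rfl⟩)).elim
    obtain ⟨z, hz1, hz2⟩ := (hcon.and (poly_codis h1)).exists
    exact hz2 hz1
  · filter_upwards [h] with z hz
    obtain ⟨hz, h0⟩ := hz
    have h1 : ∀ k, (p k).eval z = ∑ s ∈ P.support.filter (fun s => s 1 = k),
        P.coeff s * z ^ s 0 := by
      intro k
      simp only [p, Polynomial.eval_finsetSum, Polynomial.eval_monomial]
    have h2 : ∑ k ∈ Finset.range (m + 1), (p k).eval z * u z ^ k * w z ^ (m - k) =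
        ∑ s ∈ P.support, P.coeff s * z ^ s 0 * u z ^ s 1 * w z ^ (m - s 1) := by
      rw [← Finset.sum_fiberwise_of_maps_to (s := P.support) (t := Finset.range (m + 1))
        (g := fun s => s 1) (fun s hs => Finset.mem_range.2 (Nat.lt_succ_of_le (hm s hs)))]
      refine Finset.sum_congr rfl fun k _ => ?_
      rw [h1, Finset.sum_mul, Finset.sum_mul]
      refine Finset.sum_congr rfl fun s hs => ?_
      rw [(Finset.mem_filter.1 hs).2]
    have h3 : ∑ s ∈ P.support, P.coeff s * z ^ s 0 * u z ^ s 1 * w z ^ (m - s 1) =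
        w z ^ m * eval ![z, u z / w z] P := by
      rw [eval_eq', Finset.mul_sum]
      refine Finset.sum_congr rfl fun s hs => ?_
      rw [Fin.prod_univ_two]
      simp only [Matrix.cons_val_zero, Matrix.cons_val_one]
      have h4 : w z ^ m = w z ^ (m - s 1) * w z ^ s 1 := by
        rw [← pow_add, Nat.sub_add_cancel (hm s hs)]
      rw [h4, div_pow]
      field_simp
    rw [h2, h3, h0, mul_zero]

theorem algRatio_zero {u w : ℂ → ℂ} (h : ∀ᶠ z in codiscrete ℂ, w z = 0) :
    AlgRatio (Algebra.adjoin ℂ {fun z : ℂ => z}) u w := by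
  refine ⟨1, fun k _ => if k = 0 then 1 else 0, fun k => ?_, ⟨0, zero_le_one, fun h0 => ?_⟩, ?_⟩
  · exact (Algebra.adjoin ℂ {fun z : ℂ => z}).algebraMap_mem (if k = 0 then (1 : ℂ) else 0)
  · obtain ⟨z, hz⟩ := h0.exists
    simp at hz
  · filter_upwards [h] with z hz
    rw [Finset.sum_range_succ, Finset.sum_range_one]
    simp [hz]

/-- a relation which holds at uncountably many points -/
theorem exists_unc {F : IntermediateField ℚ ℂ} (hF : (F : Set ℂ).Countable) {D : Set ℂ}
    (hD : ¬ D.Countable) {r : ℂ → ℂ}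
    (h : ∀ z ∈ D, ¬ AlgebraicIndependent F ![z, r z]) :
    ∃ P : MvPolynomial (Fin 2) F, P ≠ 0 ∧ ¬ {z | z ∈ D ∧ aeval ![z, r z] P = 0}.Countable := by
  by_contra hcon
  push Not at hcon
  apply hD
  have hFc : Countable F := hF.to_subtype
  have hRc : Countable (MvPolynomial (Fin 2) F) := by
    rw [← Cardinal.mk_le_aleph0_iff]
    refine MvPolynomial.cardinalMk_le_max.trans ?_
    exact max_le (max_le (Cardinal.mk_le_aleph0_iff.2 hFc)
      (Cardinal.mk_le_aleph0_iff.2 inferInstance)) le_rfl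
  refine (Set.countable_iUnion (fun P : {P : MvPolynomial (Fin 2) F // P ≠ 0} =>
    hcon P.1 P.2)).mono ?_
  intro z hz
  have h1 := h z hz
  rw [algebraicIndependent_iff] at h1
  push Not at h1
  obtain ⟨P, h2, h3⟩ := h1
  exact mem_iUnion.2 ⟨⟨P, h3⟩, hz, h2⟩

/-- generic points of all nodes -/
theorem node_all {q : ℕ} {Λ : Fin q → PeriodPair} {κ : Option (Fin q)} {h : ℂ → ℂ}
    (hh : κ.elim (h = Complex.exp) fun c => h ∈ Ell (Λ c).ω₁ (Λ c).ω₂) :
    ∃ T : Set ℂ, T.Countable ∧ ∀ F : IntermediateField ℚ ℂ, (F : Set ℂ).Countable → T ⊆ F →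
      ∃ B : Set ℂ, B.Countable ∧ ∀ a ∉ B, AnalyticAt ℂ h a ∧ ∀ δ ∈ DF F, ∀ r,
        δ (iteratedDeriv r h a) = LgK Λ κ δ a * iteratedDeriv (r + 1) h a := by
  cases κ with
  | none =>
    have h1 : h = Complex.exp := hh
    subst h1
    exact ⟨∅, countable_empty, fun F _ _ => ⟨∅, countable_empty, fun a _ =>
      ⟨Complex.differentiable_exp.analyticAt a, fun δ _ r => exp_gen δ a r⟩⟩⟩
  | some c => exact node_gen (Λ c) hh

theorem not_countable_univ' {B : Set ℂ} (hB : B.Countable) : ¬ (Bᶜ : Set ℂ).Countable := by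
  intro h
  have h1 : (univ : Set ℂ).Countable := by
    rw [← union_compl_self B]
    exact hB.union h
  exact not_countable_complex h1

end Pool.Agent.K7.H88.EF
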