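import Pool.Agent.K7.H88.EF.Fin

/-!
# Entire curves given by compositions with elliptic functions: the main theorem
-/

set_option autoImplicit false

open Filter Topology Set MvPolynomial
open scoped PeriodPair LinearAlgebra.Projectivization

noncomputable section

namespace Pool.Agent.K7.H88.EF

open Pool.Agent.TH143.EL (Ell mero_id freq_of_ev mero_an mero_ne codis_countable codis_pre
  TorusMapsIn Rep InV HolMap inV_of_punct codis_ev rep_smul poly_codis mem_adjoin_iff trOne_poly
  rep_rep rep_iff inV_iff mero_eval)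
open Pool.Agent.TH813.Rel (DF)
open Pool.Agent.TH813.G (NoHom)
open Pool.Agent.Y776.Fam (exists_cf)
open Pool.Agent.Y776.Cv (countable_Gp Gp)
open Pool.Agent.Y377.IL (AlgRatio AlgebraicOver algRatio_rep iter_main iterated_of_algebraic
  db_of_trOne IteratedOver)

variable {N : ℕ}

theorem ind_one_I : LinearIndependent ℝ ![(1 : ℂ), Complex.I] := by
  rw [LinearIndependent.pair_iff]
  intro s t h
  have h1 := congrArg Complex.re h
  have h2 := congrArg Complex.im h
  simp at h1 h2
  exact ⟨h1, h2⟩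

/-- **Entire curves with coordinates in the class of compositions with elliptic functions** -/
theorem ef_main {I I' : Ideal (MvPolynomial (Fin (N + 1)) ℂ)} (hT : TorusMapsIn I I')
    {f : ℂ → ℙ ℂ (Fin (N + 1) → ℂ)} (hf : HolMap f) {g : Fin (N + 1) → ℂ → ℂ}
    (hg : ∀ a, EFun (g a)) (hr : ∀ᶠ z in codiscrete ℂ, Rep (f z) fun a => g a z)
    (hI : ∀ z, InV I (f z)) (hnc : ∃ z w, f z ≠ f w) : ∀ z, InV I' (f z) := by
  classical
  obtain ⟨m, nd, P, Q, R, T, hPQ, hRT⟩ := exists_polys hg
  obtain ⟨q, Λ, cc, α, hni, hα, hΛ⟩ := exists_reps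
    (fun i => (nd i).κ.getD ⟨1, Complex.I, ind_one_I⟩)
  let α' : Fin m → ℂ := fun i => if (nd i).κ = none then 1 else α i
  have hα' : ∀ i, α' i ≠ 0 := by
    intro i
    simp only [α']
    split_ifs
    · exact one_ne_zero
    · exact hα i
  let k : Fin m → Option (Fin q) := fun i => (nd i).κ.map fun _ => cc i
  let h : Fin m → ℂ → ℂ := fun i z => (nd i).h (α' i * z)
  let v : Fin m → ℂ → ℂ := fun i z => (α' i)⁻¹ * (nd i).u z
  have hhv : ∀ i z, h i (v i z) = (nd i).h ((nd i).u z) := by
    intro i z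
    simp only [h, v]
    rw [mul_inv_cancel_left₀ (hα' i)]
  have hyv : ∀ z, yv (fun i => (nd i).h) (fun i => (nd i).u) z = yv h v z := by
    intro z
    funext o
    cases o with
    | none => rfl
    | some i => exact (hhv i z).symm
  have hh : ∀ i, (k i).elim (h i = Complex.exp) fun c => h i ∈ Ell (Λ c).ω₁ (Λ c).ω₂ := by
    intro i
    have h1 := (nd i).hh
    cases hk : (nd i).κ with
    | none =>
      have h2 : k i = none := by simp only [k, hk, Option.map_none]
      rw [h2]
      rw [hk] at h1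
      have h3 : (nd i).h = Complex.exp := h1
      change h i = Complex.exp
      funext z
      simp only [h, α', hk, if_true, one_mul, h3]
    | some L =>
      have h2 : k i = some (cc i) := by simp only [k, hk, Option.map_some]
      rw [h2]
      rw [hk] at h1
      have h3 : (nd i).h ∈ Ell L.ω₁ L.ω₂ := h1
      have h4 : ∀ w ∈ (Λ (cc i)).lattice, α' i * w ∈ L.lattice := by
        intro w hw
        have h5 := hΛ i w hw
        rw [hk] at h5
        have h6 : α' i = α i := by
          simp only [α']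
          rw [if_neg]
          rw [hk]
          exact Option.some_ne_none L
        rw [h6]
        exact h5
      have h5 : ∀ w ∈ (Λ (cc i)).lattice, ∀ z, h i (z + w) = h i z := by
        intro w hw z
        simp only [h]
        rw [mul_add]
        exact per_lattice h3 (h4 w hw) _
      change h i ∈ Ell (Λ (cc i)).ω₁ (Λ (cc i)).ω₂
      exact ⟨mero_comp_ent (u := fun z => α' i * z) h3.1 (by fun_prop),
        h5 _ (Λ (cc i)).ω₁_mem_lattice, h5 _ (Λ (cc i)).ω₂_mem_lattice⟩
  have hv : ∀ i, Differentiable ℂ (v i) := fun i => (nd i).hu.const_mul _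
  have hvc : ∀ i c, ∃ z, v i z ≠ c := by
    intro i c
    obtain ⟨z, hz⟩ := (nd i).nc (α' i * c)
    refine ⟨z, fun h1 => hz ?_⟩
    rw [← h1]
    simp only [v]
    rw [mul_inv_cancel_left₀ (hα' i)]
  have hmy : ∀ o, Meromorphic fun z => yv h v z o := by
    intro o
    cases o with
    | none => exact mero_ent differentiable_id
    | some i =>
      have h1 : (fun z => yv h v z (some i)) = fun z => (nd i).h ((nd i).u z) :=
        funext fun z => hhv i z
      rw [h1]
      exact (nd i).mero
  obtain ⟨fs⟩ := exists_FrS Λ k v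
  choose Tn hTn hTn' using fun i => node_all (hh i)
  obtain ⟨S₀, hS₀⟩ := exists_forms I
  let A₀ : Fin (N + 1) → MvPolynomial (Option (Fin m)) ℂ := fun a =>
    P a * ∏ b ∈ Finset.univ.erase a, Q b
  have hA₀ : ∀ᶠ z in codiscrete ℂ, Rep (f z) fun a => eval (yv h v z) (A₀ a) := by
    filter_upwards [hr, eventually_all.2 hPQ] with z h1 h2
    simp only [hyv] at h2
    have h3 : (fun a => eval (yv h v z) (A₀ a)) =
        fun a => (∏ b, eval (yv h v z) (Q b)) * g a z := by
      funext a
      simp only [A₀, map_mul, map_prod]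
      rw [← (h2 a).2, ← Finset.mul_prod_erase Finset.univ (fun b => eval (yv h v z) (Q b))
        (Finset.mem_univ a)]
      ring
    rw [h3]
    exact (rep_smul (Finset.prod_ne_zero_iff.2 fun b _ => (h2 b).1)).2 h1
  let R₀ : Fin m → MvPolynomial (Option (Fin m)) ℂ := fun i => C (α' i)⁻¹ * R i
  have hR₀ : ∀ i, ∀ᶠ z in codiscrete ℂ, eval (yv h v z) (T i) ≠ 0 ∧
      v i z * eval (yv h v z) (T i) = eval (yv h v z) (R₀ i) := by
    intro i
    filter_upwards [hRT i] with z h1
    rw [hyv] at h1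
    refine ⟨h1.1, ?_⟩
    simp only [R₀, v, map_mul, eval_C]
    rw [← h1.2, mul_assoc]
  -- the field
  let E1 : Set ℂ := ⋃ a, Set.range fun s => (A₀ a).coeff s
  let E2 : Set ℂ := ⋃ i, Set.range fun s => (R₀ i).coeff s
  let E3 : Set ℂ := ⋃ i, Set.range fun s => (T i).coeff s
  let E4 : Set ℂ := ⋃ G : S₀, Set.range fun s => (G : MvPolynomial (Fin (N + 1)) ℂ).coeff s
  let E5 : Set ℂ := Set.range fun c => (Λ c).g₂
  let E6 : Set ℂ := Set.range fun c => (Λ c).g₃
  let E7 : Set ℂ := Set.range fun i => Complex.exp (fs.c i)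
  let E8 : Set ℂ := Set.range fun x : Fin m × Fin q => ℘[Λ x.2] (fs.c x.1)
  let E9 : Set ℂ := ⋃ i, Tn i
  obtain ⟨F, hF, hTF⟩ := exists_cf
    (T := E1 ∪ (E2 ∪ (E3 ∪ (E4 ∪ (E5 ∪ (E6 ∪ (E7 ∪ (E8 ∪ E9))))))))
    ((Set.countable_iUnion fun _ => Set.countable_range _).union
      ((Set.countable_iUnion fun _ => Set.countable_range _).union
      ((Set.countable_iUnion fun _ => Set.countable_range _).union
      ((Set.countable_iUnion fun _ => Set.countable_range _).union
      ((Set.countable_range _).union ((Set.countable_range _).union ((Set.countable_range _).union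
      ((Set.countable_range _).union (Set.countable_iUnion hTn)))))))))
  have f1 : ∀ x ∈ E1, x ∈ F := fun x hx => hTF (Or.inl hx)
  have f2 : ∀ x ∈ E2, x ∈ F := fun x hx => hTF (Or.inr (Or.inl hx))
  have f3 : ∀ x ∈ E3, x ∈ F := fun x hx => hTF (Or.inr (Or.inr (Or.inl hx)))
  have f4 : ∀ x ∈ E4, x ∈ F := fun x hx => hTF (Or.inr (Or.inr (Or.inr (Or.inl hx))))
  have f5 : ∀ x ∈ E5, x ∈ F := fun x hx => hTF (Or.inr (Or.inr (Or.inr (Or.inr (Or.inl hx)))))
  have f6 : ∀ x ∈ E6, x ∈ F := fun x hx =>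
    hTF (Or.inr (Or.inr (Or.inr (Or.inr (Or.inr (Or.inl hx))))))
  have f7 : ∀ x ∈ E7, x ∈ F := fun x hx =>
    hTF (Or.inr (Or.inr (Or.inr (Or.inr (Or.inr (Or.inr (Or.inl hx)))))))
  have f8 : ∀ x ∈ E8, x ∈ F := fun x hx =>
    hTF (Or.inr (Or.inr (Or.inr (Or.inr (Or.inr (Or.inr (Or.inr (Or.inl hx))))))))
  have f9 : ∀ x ∈ E9, x ∈ F := fun x hx =>
    hTF (Or.inr (Or.inr (Or.inr (Or.inr (Or.inr (Or.inr (Or.inr (Or.inr hx))))))))
  choose A hA using fun a => exists_lift (F := F) (A₀ a)
    (fun s => f1 _ (mem_iUnion.2 ⟨a, s, rfl⟩))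
  choose R' hR' using fun i => exists_lift (F := F) (R₀ i)
    (fun s => f2 _ (mem_iUnion.2 ⟨i, s, rfl⟩))
  choose T' hT' using fun i => exists_lift (F := F) (T i)
    (fun s => f3 _ (mem_iUnion.2 ⟨i, s, rfl⟩))
  choose SL hSL using fun G : S₀ => exists_lift (F := F) (G : MvPolynomial (Fin (N + 1)) ℂ)
    (fun s => f4 _ (mem_iUnion.2 ⟨G, s, rfl⟩))
  let S : Finset (MvPolynomial (Fin (N + 1)) F) := Finset.univ.image SL
  have hS : ∀ w : Fin (N + 1) → ℂ, (∀ G ∈ I, (∃ d, G.IsHomogeneous d) → eval w G = 0) ↔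
      ∀ G ∈ S, aeval w G = 0 := by
    intro w
    rw [hS₀]
    constructor
    · intro h1 G hG
      obtain ⟨x, -, rfl⟩ := Finset.mem_image.1 hG
      rw [aeval_eq_eval', hSL]
      exact h1 x x.2
    · intro h1 G hG
      have h2 := h1 (SL ⟨G, hG⟩) (Finset.mem_image_of_mem _ (Finset.mem_univ _))
      rwa [aeval_eq_eval', hSL] at h2
  have eA : ∀ z a, aeval (yv h v z) (A a) = eval (yv h v z) (A₀ a) := fun z a => by
    rw [aeval_eq_eval', hA]
  choose Bn hBn hBn' using fun i => hTn' i F hF (fun x hx => f9 x (mem_iUnion.2 ⟨i, hx⟩))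
  have hfx := fs.fxM hni hv hvc
  have hUc := fs.U_codis hv hvc
  let Bad : Set ℂ := fs.Uᶜ ∪ ({z | z ∈ fs.U ∧
    ¬ Gp fs.U Λ fs.ty (fun x => v (fs.eu x)) (fun x => v (fs.el x)) F z} ∪
    ((⋃ i, {z | z ∈ (univ : Set ℂ) ∧ v i z ∈ Bn i}) ∪
    ((⋃ i, {z | eval (yv h v z) (T i) ≠ 0 ∧
      v i z * eval (yv h v z) (T i) = eval (yv h v z) (R₀ i)}ᶜ) ∪
      {z | Rep (f z) fun a => eval (yv h v z) (A₀ a)}ᶜ)))
  have hBad : Bad.Countable := by
    refine (codis_countable hUc).union ((countable_Gp hfx hF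
      (Pool.Agent.TH143.EL.codis_ne hUc)).union ((Set.countable_iUnion fun i =>
      countable_pre isPreconnected_univ (fun z _ => (hv i).analyticAt z) (fun c => ?_)
        (hBn i)).union ((Set.countable_iUnion fun i => codis_countable (hR₀ i)).union
        (codis_countable hA₀))))
    obtain ⟨z, hz⟩ := hvc i c
    exact ⟨z, mem_univ z, hz⟩
  have hpt : ∀ z ∉ Bad, Pt Λ k h v fs F R' T' z ∧ Rep (f z) fun a => aeval (yv h v z) (A a) := by
    intro z hz
    simp only [Bad, mem_union, not_or, mem_compl_iff, not_not, mem_iUnion, not_exists] at hz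
    obtain ⟨z1, z2, z3, z4, z5⟩ := hz
    refine ⟨⟨hni, hv, hvc, hh, ?_, fun i => ?_, fun i => ?_, fun i => ?_, fun i => ?_,
      fun c => f5 _ ⟨c, rfl⟩, fun c => f6 _ ⟨c, rfl⟩, fun i => f7 _ ⟨i, rfl⟩,
      fun i a => f8 _ ⟨(i, a), rfl⟩⟩, ?_⟩
    · by_contra hcon
      exact z2 ⟨z1, hcon⟩
    · exact (hBn' i (v i z) fun h1 => z3 i ⟨mem_univ z, h1⟩).1
    · exact (hBn' i (v i z) fun h1 => z3 i ⟨mem_univ z, h1⟩).2
    · rw [aeval_eq_eval', hT']
      exact (z4 i).1
    · rw [aeval_eq_eval', aeval_eq_eval', hT', hR']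
      exact (z4 i).2
    · simp only [eA]
      exact z5
  have halt : ∀ z ∉ Bad, InV I' (f z) ∨ ∀ a b, aeval (yv h v z) (A b) ≠ 0 →
      ¬ AlgebraicIndependent F
        ![z, aeval (yv h v z) (A a) / aeval (yv h v z) (A b)] := by
    intro z hz
    obtain ⟨p, hrep⟩ := hpt z hz
    rcases p.alt hT hS A hrep.1 ((hS _).1 ((inV_iff hrep).1 (hI z))) with h1 | h1
    · exact Or.inl (h1 _ hrep)
    · exact Or.inr h1
  have hrA : ∀ᶠ z in codiscrete ℂ, Rep (f z) fun a => aeval (yv h v z) (A a) := by
    filter_upwards [hA₀] with z hz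
    simp only [eA]
    exact hz
  have hmA : ∀ a, Meromorphic fun z => aeval (yv h v z) (A a) := by
    intro a
    simp only [eA]
    exact mero_eval hmy (A₀ a)
  by_cases hu : {z | z ∉ Bad ∧ InV I' (f z)}.Countable
  · have ha : AlgebraicOver (Algebra.adjoin ℂ {fun z : ℂ => z}) f := by
      intro a b
      apply algRatio_rep (h := fun a z => aeval (yv h v z) (A a)) hrA
      by_cases hb : ∀ᶠ z in codiscrete ℂ, aeval (yv h v z) (A b) = 0
      · exact algRatio_zero hb
      · have hb' := mero_ne (hmA b) hb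
        let D : Set ℂ := {z | (z ∉ Bad ∧ ¬ InV I' (f z)) ∧ aeval (yv h v z) (A b) ≠ 0}
        have hD : ¬ D.Countable := by
          intro hcon
          have hB2 : (Bad ∪ ({z | z ∉ Bad ∧ InV I' (f z)} ∪
              {z | aeval (yv h v z) (A b) ≠ 0}ᶜ)).Countable :=
            hBad.union (hu.union (codis_countable hb'))
          apply not_countable_univ' hB2
          refine hcon.mono fun z hz => ?_
          simp only [mem_compl_iff, mem_union, not_or, mem_ofPred_eq, not_and, not_not] at hz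
          exact ⟨⟨hz.1, hz.2.1 hz.1⟩, hz.2.2⟩
        obtain ⟨W, hW0, hW⟩ := exists_unc hF hD (r := fun z =>
          aeval (yv h v z) (A a) / aeval (yv h v z) (A b)) (fun z hz =>
          (halt z hz.1.1).resolve_left hz.1.2 a b hz.2)
        have hmr : Meromorphic fun z => aeval (yv h v z) (A a) / aeval (yv h v z) (A b) :=
          (hmA a).div (hmA b)
        have hmW : Meromorphic fun z => aeval ![z, aeval (yv h v z) (A a) /
            aeval (yv h v z) (A b)] W := by
          have h1 : (fun z => aeval ![z, aeval (yv h v z) (A a) / aeval (yv h v z) (A b)] W) =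
              fun z => aeval (fun i => (![fun z : ℂ => z, fun z => aeval (yv h v z) (A a) /
                aeval (yv h v z) (A b)] : Fin 2 → ℂ → ℂ) i z) W := by
            funext z
            congr 2
            funext i
            fin_cases i <;> rfl
          rw [h1]
          apply mero_aeval
          intro i
          fin_cases i
          · exact mero_ent differentiable_id
          · exact hmr
        have hW1 := zero_of_unc hmW hW (fun z hz => hz.2)
        refine algRatio_of_poly (P := map (algebraMap F ℂ) W) ?_ ?_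
        · intro h0
          apply hW0
          exact (map_injective (algebraMap F ℂ) (algebraMap F ℂ).injective) (by rw [h0, map_zero])
        · filter_upwards [hb', hW1] with z h1 h2
          refine ⟨h1, ?_⟩
          rw [← aeval_eq_eval']
          exact h2
    obtain ⟨h', hl, hr'⟩ := iterated_of_algebraic (db_of_trOne trOne_poly) hf ha
    exact iter_main hT trOne_poly hf hl hr' hI hnc
  · intro z G hG hGh
    have hφ : Meromorphic fun z => eval (fun a => aeval (yv h v z) (A a)) G :=
      mero_eval hmA G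
    have h1 := zero_of_unc hφ hu (fun x hx => (inV_iff (hpt x hx.1).2).1 hx.2 G hG hGh)
    have h2 : InV (Ideal.span {G}) (f z) := by
      apply inV_of_punct hf
      filter_upwards [codis_ev h1 z, codis_ev hrA z] with x h3 h4
      rw [inV_iff h4]
      intro G' hG' _
      obtain ⟨b, rfl⟩ := Ideal.mem_span_singleton'.1 hG'
      rw [map_mul, h3, mul_zero]
    exact h2 G (Ideal.subset_span rfl) hGh

end Pool.Agent.K7.H88.EF
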