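import Mathlib

/-!
# Taylor expansions along a derivation of the field of complex numbers
-/

set_option autoImplicit false

open Filter Topology Set MvPolynomial

noncomputable section

namespace Pool.Agent.K7.H88.EF

variable {δ : Derivation ℚ ℂ ℂ}

/-- the derivatives of `G` at `0` are given by the iterates of `δ` -/
def Fl (δ : Derivation ℚ ℂ ℂ) (G : ℂ → ℂ) : Prop :=
  AnalyticAt ℂ G 0 ∧ ∀ k, iteratedDeriv k G 0 = δ^[k] (G 0)

theorem iter_zero (δ : Derivation ℚ ℂ ℂ) (k : ℕ) : δ^[k] 0 = 0 := by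
  induction k with
  | zero => rfl
  | succ k ih => rw [Function.iterate_succ_apply, map_zero, ih]

theorem iter_add (δ : Derivation ℚ ℂ ℂ) (k : ℕ) (a b : ℂ) : δ^[k] (a + b) = δ^[k] a + δ^[k] b := by
  induction k generalizing a b with
  | zero => rfl
  | succ k ih => rw [Function.iterate_succ_apply, Function.iterate_succ_apply,
      Function.iterate_succ_apply, map_add, ih]

theorem Fl.const {c : ℂ} (hc : δ c = 0) : Fl δ fun _ => c := by
  refine ⟨analyticAt_const, fun k => ?_⟩
  cases k with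
  | zero => simp
  | succ k =>
    rw [Function.iterate_succ_apply, hc, iter_zero]
    simp [iteratedDeriv_const]

theorem Fl.add {G H : ℂ → ℂ} (hG : Fl δ G) (hH : Fl δ H) : Fl δ fun z => G z + H z := by
  refine ⟨hG.1.add hH.1, fun k => ?_⟩
  rw [iter_add, ← hG.2, ← hH.2]
  exact iteratedDeriv_fun_add (hG.1.contDiffAt) (hH.1.contDiffAt)

theorem Fl.deriv {G : ℂ → ℂ} (hG : Fl δ G) : Fl δ (deriv G) := by
  refine ⟨hG.1.deriv, fun k => ?_⟩
  have h1 := hG.2 1
  rw [iteratedDeriv_one] at h1
  rw [← iteratedDeriv_succ', hG.2, Function.iterate_succ_apply, h1]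
  rfl

theorem Fl.deriv_eq {G : ℂ → ℂ} (hG : Fl δ G) : _root_.deriv G 0 = δ (G 0) := by
  have h1 := hG.2 1
  rwa [iteratedDeriv_one] at h1

theorem Fl.mul_aux (k : ℕ) : ∀ {G H : ℂ → ℂ}, Fl δ G → Fl δ H →
    iteratedDeriv k (fun z => G z * H z) 0 = δ^[k] (G 0 * H 0) := by
  induction k with
  | zero => intro G H _ _; simp
  | succ k ih =>
    intro G H hG hH
    rw [iteratedDeriv_succ', Function.iterate_succ_apply]
    have h1 : _root_.deriv (fun z => G z * H z) =ᶠ[𝓝 0]
        fun z => _root_.deriv G z * H z + G z * _root_.deriv H z := by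
      filter_upwards [hG.1.eventually_analyticAt, hH.1.eventually_analyticAt] with z h1 h2
      exact deriv_fun_mul h1.differentiableAt h2.differentiableAt
    rw [h1.iteratedDeriv_eq k]
    refine (iteratedDeriv_fun_add (f := fun z => _root_.deriv G z * H z)
      (g := fun z => G z * _root_.deriv H z) ((hG.1.deriv.mul hH.1).contDiffAt)
      ((hG.1.mul hH.1.deriv).contDiffAt)).trans ?_
    rw [ih hG.deriv hH, ih hG hH.deriv, hG.deriv_eq, hH.deriv_eq, ← iter_add]
    congr 1
    rw [Derivation.leibniz, smul_eq_mul, smul_eq_mul]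
    ring

theorem Fl.mul {G H : ℂ → ℂ} (hG : Fl δ G) (hH : Fl δ H) : Fl δ fun z => G z * H z :=
  ⟨hG.1.mul hH.1, fun k => Fl.mul_aux k hG hH⟩

theorem Fl.ev_zero {G : ℂ → ℂ} (hG : Fl δ G) (h0 : G 0 = 0) : ∀ᶠ z in 𝓝 0, G z = 0 := by
  have h1 : ∀ k, iteratedDeriv k G 0 = 0 := fun k => by rw [hG.2, h0, iter_zero]
  by_contra hne
  have h2 : analyticOrderAt G 0 ≠ ⊤ := fun h => hne (analyticOrderAt_eq_top.1 h)
  obtain ⟨n, hn⟩ := ENat.ne_top_iff_exists.1 h2
  have h3 : ((n + 1 : ℕ) : ℕ∞) ≤ analyticOrderAt G 0 := by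
    rw [natCast_le_analyticOrderAt_iff_iteratedDeriv_eq_zero hG.1]
    intro k _
    exact h1 k
  rw [← hn] at h3
  have h4 : n + 1 ≤ n := by exact_mod_cast h3
  omega

variable {F : IntermediateField ℚ ℂ} {σ : Type}

theorem Fl.poly (hF : ∀ x ∈ F, δ x = 0) {H : σ → ℂ → ℂ} (hH : ∀ i, Fl δ (H i))
    (P : MvPolynomial σ F) : Fl δ fun z => aeval (fun i => H i z) P := by
  induction P using MvPolynomial.induction_on with
  | C a =>
    simp only [aeval_C]
    exact Fl.const (hF _ a.2)
  | add p q hp hq =>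
    simp only [map_add]
    exact hp.add hq
  | mul_X p s hp =>
    simp only [map_mul, aeval_X]
    exact hp.mul (hH s)

/-- **the flow** -/
theorem flow (hF : ∀ x ∈ F, δ x = 0) {H : σ → ℂ → ℂ} (hH : ∀ i, Fl δ (H i))
    (P : MvPolynomial σ F) (hP : aeval (fun i => H i 0) P = 0) :
    ∀ᶠ z in 𝓝 0, aeval (fun i => H i z) P = 0 :=
  (Fl.poly hF hH P).ev_zero hP

/-- the derivatives of a function on a line -/
theorem iter_line {h : ℂ → ℂ} {a : ℂ} (ha : AnalyticAt ℂ h a) (β : ℂ) (k : ℕ) :
    iteratedDeriv k (fun z => h (a + β * z)) =ᶠ[𝓝 0] fun z => β ^ k * iteratedDeriv k h (a + β * z) := by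
  have hc : Tendsto (fun z : ℂ => a + β * z) (𝓝 0) (𝓝 a) := by
    have : Continuous fun z : ℂ => a + β * z := by fun_prop
    have h1 := this.tendsto 0
    simpa using h1
  induction k with
  | zero => simp
  | succ k ih =>
    rw [iteratedDeriv_succ]
    refine ih.deriv.trans ?_
    filter_upwards [hc.eventually ha.eventually_analyticAt] with z hz
    rw [iteratedDeriv_succ]
    have h1 : HasDerivAt (fun z : ℂ => a + β * z) β z := by
      simpa using ((hasDerivAt_id z).const_mul β).const_add a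
    have h2 : AnalyticAt ℂ (iteratedDeriv k h) (a + β * z) := by
      rw [iteratedDeriv_eq_iterate]
      exact hz.iterated_deriv k
    have h3 := (h2.differentiableAt.hasDerivAt.comp z h1).const_mul (β ^ k)
    have h4 : HasDerivAt (fun z => β ^ k * iteratedDeriv k h (a + β * z))
      (β ^ k * (_root_.deriv (iteratedDeriv k h) (a + β * z) * β)) z := h3
    rw [h4.deriv]
    ring

theorem Fl.line {h : ℂ → ℂ} {a β : ℂ} (ha : AnalyticAt ℂ h a) (hβ : δ β = 0)
    (hd : ∀ k, δ (iteratedDeriv k h a) = β * iteratedDeriv (k + 1) h a) :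
    Fl δ fun z => h (a + β * z) := by
  have hc : AnalyticAt ℂ (fun z : ℂ => a + β * z) 0 := by fun_prop
  refine ⟨?_, fun k => ?_⟩
  · refine AnalyticAt.fun_comp (f := fun z : ℂ => a + β * z) ?_ hc
    simpa using ha
  · rw [(iter_line ha β k).self_of_nhds]
    simp only [mul_zero, add_zero]
    have h1 : ∀ k, δ (β ^ k) = 0 := by
      intro k
      rw [Derivation.leibniz_pow, hβ]
      simp
    induction k with
    | zero => simp
    | succ k ih =>
      rw [Function.iterate_succ_apply', ← ih, Derivation.leibniz, h1, hd]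
      simp only [smul_eq_mul]
      ring

end Pool.Agent.K7.H88.EF
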