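import Mathlib

/-!
# Free families modulo constants
-/

set_option autoImplicit false

noncomputable section

namespace Pool.Agent.K7.H88.EF

/-- the constants -/
def Cns (K : IntermediateField ℚ ℂ) : Submodule K (ℂ → ℂ) where
  carrier := {f | ∃ c, ∀ z, f z = c}
  add_mem' := by
    rintro f g ⟨c, hc⟩ ⟨d, hd⟩
    exact ⟨c + d, fun z => by rw [Pi.add_apply, hc, hd]⟩
  zero_mem' := ⟨0, fun _ => rfl⟩
  smul_mem' := by
    rintro a f ⟨c, hc⟩
    exact ⟨a • c, fun z => by rw [Pi.smul_apply, hc]⟩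

theorem mem_Cns {K : IntermediateField ℚ ℂ} {f : ℂ → ℂ} : f ∈ Cns K ↔ ∃ c, ∀ z, f z = c := Iff.rfl

/-- **free subfamilies** -/
theorem exists_free (K : IntermediateField ℚ ℂ) {ι : Type} [Finite ι] (v : ι → ℂ → ℂ) :
    ∃ (n : ℕ) (e : Fin n → ι) (β : ι → Fin n → ℂ) (c : ι → ℂ), (∀ i j, β i j ∈ K) ∧
      (∀ i z, v i z = ∑ j, β i j * v (e j) z + c i) ∧
      ∀ (a : Fin n → ℂ) (b : ℂ), (∀ j, a j ∈ K) → (∀ z, ∑ j, a j * v (e j) z = b) → a = 0 := by
  classical
  obtain ⟨κ, e₀, he, hsp, hli⟩ := exists_linearIndependent' K (fun i => (Cns K).mkQ (v i))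
  have hfin : Finite κ := Finite.of_injective e₀ he
  obtain ⟨n, ⟨φ⟩⟩ := Finite.exists_equiv_fin κ
  have h1 : ∀ i, ∃ β : Fin n → K, ∃ c : ℂ, ∀ z, v i z = ∑ j, (β j : ℂ) * v (e₀ (φ.symm j)) z + c := by
    intro i
    have h2 : (Cns K).mkQ (v i) ∈ Submodule.span K
        (Set.range (fun j : Fin n => (Cns K).mkQ (v (e₀ (φ.symm j))))) := by
      have h3 : Set.range (fun j : Fin n => (Cns K).mkQ (v (e₀ (φ.symm j)))) =
          Set.range ((fun i => (Cns K).mkQ (v i)) ∘ e₀) := by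
        ext x
        constructor
        · rintro ⟨j, rfl⟩
          exact ⟨φ.symm j, rfl⟩
        · rintro ⟨k, rfl⟩
          exact ⟨φ k, by simp⟩
      rw [h3, hsp]
      exact Submodule.subset_span ⟨i, rfl⟩
    obtain ⟨β, hβ⟩ := (Submodule.mem_span_range_iff_exists_fun _).1 h2
    have h4 : v i - ∑ j, β j • v (e₀ (φ.symm j)) ∈ Cns K := by
      rw [← Submodule.ker_mkQ (Cns K), LinearMap.mem_ker, map_sub, map_sum]
      simp only [map_smul]
      rw [hβ, sub_self]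
    obtain ⟨c, hc⟩ := h4
    refine ⟨β, c, fun z => ?_⟩
    have h5 := hc z
    rw [Pi.sub_apply, Finset.sum_apply] at h5
    simp only [Pi.smul_apply, IntermediateField.smul_def, smul_eq_mul] at h5
    linear_combination h5
  choose β c h1 using h1
  refine ⟨n, fun j => e₀ (φ.symm j), fun i j => β i j, c, fun i j => (β i j).2, h1, ?_⟩
  intro a b ha hb
  have h2 := hli.comp φ.symm φ.symm.injective
  rw [Fintype.linearIndependent_iff] at h2
  have h3 := h2 (fun j => ⟨a j, ha j⟩) (by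
    have h4 : ∑ j, (⟨a j, ha j⟩ : K) • v (e₀ (φ.symm j)) ∈ Cns K := by
      refine ⟨b, fun z => ?_⟩
      rw [Finset.sum_apply, ← hb z]
      exact Finset.sum_congr rfl fun j _ => rfl
    rw [← Submodule.ker_mkQ (Cns K), LinearMap.mem_ker, map_sum] at h4
    simp only [map_smul] at h4
    exact h4)
  funext j
  exact congrArg Subtype.val (h3 j)

/-- dual isogenies -/
theorem hom_symm {L M : PeriodPair} {α : ℂ} (hα : α ≠ 0)
    (h : ∀ w ∈ L.lattice, α * w ∈ M.lattice) :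
    ∃ β : ℂ, β ≠ 0 ∧ ∀ w ∈ M.lattice, β * w ∈ L.lattice := by
  obtain ⟨a, b, h1⟩ := PeriodPair.mem_lattice.1 (h _ L.ω₁_mem_lattice)
  obtain ⟨c, d, h2⟩ := PeriodPair.mem_lattice.1 (h _ L.ω₂_mem_lattice)
  have e1 : ((a * d - b * c : ℤ) : ℂ) * M.ω₁ = α * (d * L.ω₁ - b * L.ω₂) := by
    push_cast
    linear_combination d * h1 - b * h2
  have e2 : ((a * d - b * c : ℤ) : ℂ) * M.ω₂ = α * (-c * L.ω₁ + a * L.ω₂) := by
    push_cast
    linear_combination -c * h1 + a * h2
  have hli := LinearIndependent.pair_iff.1 L.indep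
  have hz : ∀ m n : ℤ, (m : ℂ) * L.ω₁ + n * L.ω₂ = 0 → m = 0 ∧ n = 0 := by
    intro m n h3
    have h4 := hli m n (by
      rw [Complex.real_smul, Complex.real_smul]
      exact_mod_cast h3)
    exact ⟨by exact_mod_cast h4.1, by exact_mod_cast h4.2⟩
  have hΔ : (a * d - b * c : ℤ) ≠ 0 := by
    intro h0
    rw [h0, Int.cast_zero, zero_mul] at e1 e2
    have h3 := (mul_eq_zero.1 e1.symm).resolve_left hα
    have h4 := (mul_eq_zero.1 e2.symm).resolve_left hα
    obtain ⟨h5, h6⟩ := hz d (-b) (by push_cast; linear_combination h3)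
    obtain ⟨h7, h8⟩ := hz (-c) a (by push_cast; linear_combination h4)
    have hb : b = 0 := by omega
    rw [h8, hb, Int.cast_zero, zero_mul, zero_mul, add_zero] at h1
    have h9 := (mul_eq_zero.1 h1.symm).resolve_left hα
    have h10 := hz 1 0 (by rw [h9]; simp)
    exact one_ne_zero h10.1
  refine ⟨((a * d - b * c : ℤ) : ℂ) / α, div_ne_zero (by exact_mod_cast hΔ) hα, fun w hw => ?_⟩
  obtain ⟨m, n, rfl⟩ := PeriodPair.mem_lattice.1 hw
  rw [PeriodPair.mem_lattice]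
  refine ⟨m * d - n * c, -m * b + n * a, ?_⟩
  push_cast at e1 e2 ⊢
  field_simp
  linear_combination (-(m : ℂ)) * e1 - (n : ℂ) * e2

/-- lattices up to isogeny -/
def isog {ι : Type} (M : ι → PeriodPair) : Setoid ι where
  r i j := ∃ α : ℂ, α ≠ 0 ∧ ∀ w ∈ (M i).lattice, α * w ∈ (M j).lattice
  iseqv :=
    { refl := fun i => ⟨1, one_ne_zero, fun w hw => by rwa [one_mul]⟩
      symm := by
        rintro i j ⟨α, hα, h⟩
        exact hom_symm hα h
      trans := by
        rintro i j k ⟨α, hα, h⟩ ⟨β, hβ, h'⟩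
        exact ⟨β * α, mul_ne_zero hβ hα, fun w hw => by
          rw [mul_assoc]
          exact h' _ (h w hw)⟩ }

/-- **representatives of the isogeny classes** -/
theorem exists_reps {ι : Type} [Finite ι] (M : ι → PeriodPair) :
    ∃ (q : ℕ) (Λ : Fin q → PeriodPair) (c : ι → Fin q) (α : ι → ℂ),
      (∀ x y, x ≠ y → ∀ β : ℂ, (∀ w ∈ (Λ x).lattice, β * w ∈ (Λ y).lattice) → β = 0) ∧
      (∀ i, α i ≠ 0) ∧ ∀ i, ∀ w ∈ (Λ (c i)).lattice, α i * w ∈ (M i).lattice := by
  classical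
  have hfin : Finite (Quotient (isog M)) := inferInstance
  obtain ⟨q, ⟨φ⟩⟩ := Finite.exists_equiv_fin (Quotient (isog M))
  have h1 : ∀ i, ∃ α : ℂ, α ≠ 0 ∧
      ∀ w ∈ (M (Quotient.out (Quotient.mk (isog M) i))).lattice, α * w ∈ (M i).lattice := fun i =>
    Quotient.mk_out (s := isog M) i
  choose α hα h1 using h1
  refine ⟨q, fun x => M (Quotient.out (φ.symm x)), fun i => φ (Quotient.mk (isog M) i), α, ?_, hα,
    fun i w hw => ?_⟩
  · intro x y hxy β hβ
    by_contra hne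
    apply hxy
    apply φ.symm.injective
    rw [← Quotient.out_eq (φ.symm x), ← Quotient.out_eq (φ.symm y)]
    exact Quotient.sound ⟨β, hne, hβ⟩
  · simp only [Equiv.symm_apply_apply] at hw
    exact h1 i w hw

end Pool.Agent.K7.H88.EF
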