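import Pool.Agent.TH813.EllRank
import Pool.Agent.Y776.TorA
import Pool.Agent.Y776.Fam.Main
import Pool.Agent.TH143.EL.Ell

/-!
# Elliptic functions at generic numbers
-/

set_option autoImplicit false

open Filter Topology Set MvPolynomial
open scoped PeriodPair

noncomputable section

namespace Pool.Agent.K7.H88.EF

open H667R3 Pool.Agent.W245.EB
open Pool.Agent.TH143.EL (Ell trOne_ell ell_dep mero_an codis_open codis_pre codis_countable
  eq_of_codis nc_wp NC codis_ne)
open Pool.Agent.TH813.Rel (DF MK mem_DF)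
open Pool.Agent.TH813.Ell (om mem_cl_iff)
open Pool.Agent.Y776 (lg)
open Pool.Agent.Y776.Fam (Gn countable_Gn exists_D countable_zeros indep_of_rank)

variable {F : IntermediateField ℚ ℂ} {L : PeriodPair}

theorem exists_lift {σ : Type} (P : MvPolynomial σ ℂ) (h : ∀ m, P.coeff m ∈ F) :
    ∃ P' : MvPolynomial σ F, MvPolynomial.map (algebraMap F ℂ) P' = P := by
  have h1 : P ∈ Set.range (MvPolynomial.map (σ := σ) (algebraMap F ℂ)) := by
    rw [mem_range_map_iff_coeffs_subset]
    intro x hx
    obtain ⟨m, hm, rfl⟩ := mem_coeffs_iff.1 hx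
    exact ⟨⟨_, h m⟩, rfl⟩
  exact h1

/-- a number in the closure of another one -/
theorem cl_of_poly {x y : ℂ} (hy : ¬ IsAlgebraic F y) {P : MvPolynomial (Fin 2) F} (hP : P ≠ 0)
    (h : aeval ![x, y] P = 0) : x ∈ (MK F).closure {y} := by
  by_contra hx
  have h0 : (MK F).Indep {y} := by
    rw [AlgebraicIndependent.matroid_indep_iff]
    have h1 : AlgebraicIndependent F (fun _ : Unit => y) := by
      rw [algebraicIndependent_unique_type_iff]
      exact hy
    have h2 := AlgebraicIndependent.coe_range h1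
    have h3 : Set.range (fun _ : Unit => y) = {y} := by
      ext x
      simp [eq_comm]
    rw [h3] at h2
    exact h2
  have h2 : (MK F).eRk (insert x {y}) = (MK F).eRk {y} + 1 :=
    Matroid.eRk_insert_eq_add_one ⟨mem_univ _, hx⟩
  have h3 : AlgebraicIndependent F ![x, y] := by
    apply indep_of_rank
    have h4 : Set.range ![x, y] = insert x {y} := by
      ext z
      simp [eq_comm, or_comm]
    rw [h4, h2, h0.eRk_eq_encard, Set.encard_singleton, Fintype.card_fin]
    norm_num
  exact hP ((algebraicIndependent_iff.1 h3) P h)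

/-- preimages of countable sets -/
theorem countable_pre {U : Set ℂ} (hc : IsPreconnected U) {f : ℂ → ℂ} (hf : AnalyticOnNhd ℂ f U)
    (hnc : ∀ c, ∃ z ∈ U, f z ≠ c) {C : Set ℂ} (hC : C.Countable) :
    {z | z ∈ U ∧ f z ∈ C}.Countable := by
  refine (hC.biUnion (t := fun c _ => {z | z ∈ U ∧ f z - c = 0}) (fun c _ =>
    countable_zeros hc (f := fun z => f z - c) (hf.sub analyticOnNhd_const) (by
      obtain ⟨z, hz, h⟩ := hnc c
      exact ⟨z, hz, sub_ne_zero.2 h⟩))).mono ?_
  rintro z ⟨hz, h⟩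
  exact mem_biUnion h ⟨hz, sub_self _⟩

theorem countable_lattice (L : PeriodPair) : (L.lattice : Set ℂ).Countable :=
  Set.countable_coe_iff.1 (inferInstance : Countable L.lattice)

theorem wp_ell (L : PeriodPair) : ℘[L] ∈ Ell L.ω₁ L.ω₂ :=
  ⟨L.meromorphic_weierstrassP, fun z => L.weierstrassP_add_coe z ⟨L.ω₁, L.ω₁_mem_lattice⟩,
    fun z => L.weierstrassP_add_coe z ⟨L.ω₂, L.ω₂_mem_lattice⟩⟩

theorem iter_ell {h : ℂ → ℂ} (hh : h ∈ Ell L.ω₁ L.ω₂) (k : ℕ) :
    iteratedDeriv k h ∈ Ell L.ω₁ L.ω₂ := by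
  induction k with
  | zero => rw [iteratedDeriv_zero]; exact hh
  | succ k ih =>
    rw [iteratedDeriv_succ]
    exact (trOne_ell L.indep).der _ ih

/-- **elliptic functions at generic numbers** -/
theorem node_gen (L : PeriodPair) {h : ℂ → ℂ} (hh : h ∈ Ell L.ω₁ L.ω₂) :
    ∃ T : Set ℂ, T.Countable ∧ ∀ F : IntermediateField ℚ ℂ, (F : Set ℂ).Countable → T ⊆ F →
      ∃ B : Set ℂ, B.Countable ∧ ∀ a ∉ B, AnalyticAt ℂ h a ∧ ∀ δ ∈ DF F, ∀ k,
        δ (iteratedDeriv k h a) = om L δ a * iteratedDeriv (k + 1) h a := by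
  classical
  choose P hP0 hP using fun k => ell_dep L.indep (iter_ell hh k) (wp_ell L)
  refine ⟨⋃ k, Set.range (fun m => (P k).coeff m), Set.countable_iUnion fun k =>
    Set.countable_range _, fun F hFc hT => ?_⟩
  have hFc' : Countable F := hFc.to_subtype
  choose P' hP' using fun k => exists_lift (F := F) (P k) (fun m => hT (mem_iUnion.2 ⟨k, m, rfl⟩))
  set U : Set ℂ := {z | AnalyticAt ℂ h z ∧ AnalyticAt ℂ ℘[L] z} with hUdef
  have hU : U ∈ codiscrete ℂ := by
    filter_upwards [mero_an hh.1, mero_an L.meromorphic_weierstrassP] with z h1 h2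
    exact ⟨h1, h2⟩
  let pr : ℕ → Fin 2 → ℂ → ℂ := fun k => ![iteratedDeriv k h, ℘[L]]
  have hk : ∀ k, ∀ z ∈ U, AnalyticAt ℂ (iteratedDeriv k h) z := fun k z hz => by
    rw [iteratedDeriv_eq_iterate]
    exact hz.1.iterated_deriv k
  have hpr : ∀ k i, AnalyticOnNhd ℂ (pr k i) U := by
    intro k i z hz
    fin_cases i
    · exact hk k z hz
    · exact hz.2
  refine ⟨Uᶜ ∪ ((fun x => 2 * x) ⁻¹' (L.lattice : Set ℂ) ∪ ((L.lattice : Set ℂ) ∪
    ({z | z ∈ U ∧ ℘[L] z ∈ {x : ℂ | IsAlgebraic F x}} ∪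
      ⋃ k, {z | z ∈ U ∧ ¬ Gn U F (pr k) z}))), ?_, ?_⟩
  · refine (codis_countable hU).union (((countable_lattice L).preimage (fun x y hxy => ?_)).union
      ((countable_lattice L).union ((countable_pre (codis_pre hU) (fun z hz => hz.2) ?_
      (Algebraic.countable F ℂ)).union
      (Set.countable_iUnion fun k => countable_Gn (codis_pre hU) hFc (hpr k)))))
    · exact mul_left_cancel₀ two_ne_zero hxy
    · intro c
      by_contra hcon
      push Not at hcon
      apply nc_wp L
      refine ⟨c, ?_⟩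
      filter_upwards [hU] with z hz
      exact hcon z hz
  · intro a ha
    simp only [mem_union, not_or, mem_compl_iff, not_not, mem_iUnion, not_exists] at ha
    obtain ⟨haU, ha2, hal, hatr, haG⟩ := ha
    refine ⟨haU.1, fun δ hδ k => ?_⟩
    obtain ⟨D, hDF, hD⟩ := exists_D (codis_open hU) haU (hpr k) (by
      by_contra hG
      exact haG k ⟨haU, hG⟩)
    have hD0 : D (iteratedDeriv k h a) = iteratedDeriv (k + 1) h a := by
      rw [iteratedDeriv_succ]
      exact hD 0
    have hD1 : D (℘[L] a) = ℘'[L] a := by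
      have h1 : D (℘[L] a) = deriv ℘[L] a := hD 1
      rw [h1]
      exact (hasDerivAt_weierstrassP L hal).deriv
    have hne : ℘'[L] a ≠ 0 := wp'_ne_zero L ha2
    have hP1 : aeval ![iteratedDeriv k h a, ℘[L] a] (P' k) = 0 := by
      have h1 : ∀ z, aeval ![iteratedDeriv k h z, ℘[L] z] (P' k) =
          eval ![iteratedDeriv k h z, ℘[L] z] (P k) := fun z => by
        rw [aeval_def, ← eval_map, hP']
      have h2 : (fun z => ![iteratedDeriv k h z, ℘[L] z]) = fun z i => pr k i z := by
        funext z i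
        fin_cases i <;> rfl
      have h3 : ContinuousAt (fun z => aeval ![iteratedDeriv k h z, ℘[L] z] (P' k)) a := by
        have h4 := (Pool.Agent.Y776.Fam.an_aeval (F := F) (hpr k) (P' k)) a haU
        have h5 : (fun z => aeval (fun i => pr k i z) (P' k)) =
            fun z => aeval ![iteratedDeriv k h z, ℘[L] z] (P' k) := by
          funext z
          rw [← congrFun h2 z]
        rw [h5] at h4
        exact h4.continuousAt
      refine eq_of_codis (g := fun _ => 0) ?_ h3 continuousAt_const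
      filter_upwards [hP k] with z hz
      rw [h1]
      exact hz
    have hP'0 : P' k ≠ 0 := by
      intro h0
      apply hP0 k
      rw [← hP', h0, map_zero]
    have hcl : iteratedDeriv k h a ∈ (MK F).closure {℘[L] a} :=
      cl_of_poly (fun hx => hatr ⟨haU, hx⟩) hP'0 hP1
    have hE := (mem_cl_iff {℘[L] a} (iteratedDeriv k h a)).1 hcl (δ - om L δ a • D)
      ((DF F).sub_mem hδ ((DF F).smul_mem _ hDF)) (by
        rintro _ rfl
        rw [Derivation.sub_apply, Derivation.smul_apply, hD1, smul_eq_mul]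
        unfold om
        rw [div_mul_cancel₀ _ hne, sub_self])
    rw [Derivation.sub_apply, Derivation.smul_apply, hD0, smul_eq_mul] at hE
    exact sub_eq_zero.1 hE

theorem exp_gen (δ : Derivation ℚ ℂ ℂ) (a : ℂ) (k : ℕ) :
    δ (iteratedDeriv k Complex.exp a) = lg δ a * iteratedDeriv (k + 1) Complex.exp a := by
  have h1 : ∀ k, iteratedDeriv k Complex.exp = Complex.exp := fun k => by
    rw [iteratedDeriv_eq_iterate, Complex.iter_deriv_exp]
  rw [h1, h1]
  unfold lg
  rw [div_mul_cancel₀ _ (Complex.exp_ne_zero a)]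

end Pool.Agent.K7.H88.EF
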