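import Pool.Agent.K7.H88.EF.Free
import Pool.Agent.Y776.Cv.Fix
import Pool.Agent.TH143.EL.Mero

/-!
# Free families of nodes
-/

set_option autoImplicit false

open Filter Topology Set
open scoped PeriodPair

noncomputable section

namespace Pool.Agent.K7.H88.EF

open H667R3 Pool.Agent.W245.EB
open Pool.Agent.TH143.EL (codis_open codis_pre codis_of_punct codis_ne)
open Pool.Agent.TH813.Ell (kL mult_mem_kL)
open Pool.Agent.TH813.G (NoHom)
open Pool.Agent.Y776.Cv (FxM)
open Pool.Agent.Y776.Fam (IndC)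

variable {q m : ℕ}

/-- free families of nodes -/
structure FrS (Λ : Fin q → PeriodPair) (k : Fin m → Option (Fin q)) (v : Fin m → ℂ → ℂ) where
  s : ℕ
  n : ℕ
  el : Fin s → Fin m
  eu : Fin n → Fin m
  ty : Fin n → Fin q
  hel : ∀ x, k (el x) = none
  heu : ∀ x, k (eu x) = some (ty x)
  bl : Fin m → Fin s → ℚ
  bu : Fin m → Fin n → ℂ
  c : Fin m → ℂ
  hvl : ∀ i, k i = none → ∀ z, v i z = ∑ x, (bl i x : ℂ) * v (el x) z + c i
  hvu : ∀ i a, k i = some a → ∀ z, v i z = ∑ x, bu i x * v (eu x) z + c i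
  hbu : ∀ i a, k i = some a → ∀ x, bu i x ∈ kL (Λ a)
  hbt : ∀ i a, k i = some a → ∀ x, ty x ≠ a → bu i x = 0
  fl : ∀ (a : Fin s → ℂ) (b : ℂ), (∀ x, a x ∈ (⊥ : IntermediateField ℚ ℂ)) →
    (∀ z, ∑ x, a x * v (el x) z = b) → a = 0
  fu : ∀ (c : Fin q) (a : Fin n → ℂ) (b : ℂ), (∀ x, a x ∈ kL (Λ c)) → (∀ x, ty x ≠ c → a x = 0) →
    (∀ z, ∑ x, a x * v (eu x) z = b) → a = 0

/-- **free families exist** -/
theorem exists_FrS (Λ : Fin q → PeriodPair) (k : Fin m → Option (Fin q)) (v : Fin m → ℂ → ℂ) :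
    Nonempty (FrS Λ k v) := by
  classical
  obtain ⟨s, e0, b0, c0, h1, h2, h3⟩ := exists_free ⊥ (fun i : {i // k i = none} => v i)
  choose n1 e1 b1 c1 k1 k2 k3 using fun c : Fin q =>
    exists_free (kL (Λ c)) (fun i : {i // k i = some c} => v i)
  let E := Σ c : Fin q, Fin (n1 c)
  obtain ⟨n, ⟨ψ⟩⟩ := Finite.exists_equiv_fin E
  have hb0 : ∀ i : {i // k i = none}, ∀ x, ∃ r : ℚ, (r : ℂ) = b0 i x := by
    intro i x
    obtain ⟨r, hr⟩ := IntermediateField.mem_bot.1 (h1 i x)
    exact ⟨r, by rw [← hr]; simp⟩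
  choose r0 hr0 using hb0
  let bE : Fin m → E → ℂ := fun i x => if hi : k i = some x.1 then b1 x.1 ⟨i, hi⟩ x.2 else 0
  have hbE : ∀ i a, k i = some a → ∀ x : E, x.1 ≠ a → bE i x = 0 := by
    intro i a hi x hx
    simp only [bE]
    rw [dif_neg]
    rw [hi]
    intro h
    exact hx (Option.some.inj h).symm
  have hbE' : ∀ i a (hi : k i = some a) (x : Fin (n1 a)), bE i ⟨a, x⟩ = b1 a ⟨i, hi⟩ x := by
    intro i a hi x
    simp only [bE]
    rw [dif_pos hi]
  have hsum : ∀ (a : Fin q) (g : E → ℂ) (_ : ∀ x : E, x.1 ≠ a → g x = 0),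
      ∑ x : Fin n, g (ψ.symm x) = ∑ x : Fin (n1 a), g ⟨a, x⟩ := by
    intro a g hg
    rw [Equiv.sum_comp ψ.symm g, Fintype.sum_sigma, Finset.sum_eq_single a]
    · intro b _ hb
      exact Finset.sum_eq_zero fun x _ => hg _ hb
    · intro h
      exact absurd (Finset.mem_univ a) h
  refine ⟨⟨s, n, fun x => e0 x, fun x => e1 (ψ.symm x).1 (ψ.symm x).2, fun x => (ψ.symm x).1,
    fun x => (e0 x).2, fun x => (e1 (ψ.symm x).1 (ψ.symm x).2).2,
    fun i x => if hi : k i = none then r0 ⟨i, hi⟩ x else 0, fun i x => bE i (ψ.symm x),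
    fun i => if hi : k i = none then c0 ⟨i, hi⟩ else
      if hi : ∃ a, k i = some a then c1 hi.choose ⟨i, hi.choose_spec⟩ else 0, ?_, ?_, ?_, ?_, ?_,
      ?_⟩⟩
  · intro i hi z
    rw [h2 ⟨i, hi⟩ z, dif_pos hi]
    congr 1
    refine Finset.sum_congr rfl fun x _ => ?_
    rw [dif_pos hi, hr0]
  · intro i a hi z
    have hn : ¬ k i = none := by rw [hi]; exact Option.some_ne_none a
    have hex : ∃ a, k i = some a := ⟨a, hi⟩
    rw [dif_neg hn, dif_pos hex]
    have ha : ∀ (a' : Fin q) (h' : k i = some a'), c1 a' ⟨i, h'⟩ = c1 a ⟨i, hi⟩ := by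
      intro a' h'
      have h4 : a' = a := Option.some.inj (h'.symm.trans hi)
      subst h4
      rfl
    rw [ha _ hex.choose_spec]
    rw [hsum a (fun x => bE i x * v (e1 x.1 x.2) z) (fun x hx => by rw [hbE i a hi x hx, zero_mul])]
    have h5 := k2 a ⟨i, hi⟩ z
    simp only at h5
    rw [h5]
    congr 1
    exact Finset.sum_congr rfl fun x _ => by rw [hbE' i a hi]
  · intro i a hi x
    by_cases hx : (ψ.symm x).1 = a
    · obtain ⟨y, rfl⟩ := ψ.surjective x
      rw [Equiv.symm_apply_apply] at hx ⊢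
      obtain ⟨y1, y2⟩ := y
      simp only at hx
      subst hx
      rw [hbE' i y1 hi]
      exact k1 _ _ _
    · rw [hbE i a hi _ hx]
      exact zero_mem _
  · intro i a hi x hx
    exact hbE i a hi _ hx
  · exact h3
  · intro c a b ha ht hb
    have hg : ∀ z (y : E), y.1 ≠ c → a (ψ y) * v (e1 y.1 y.2) z = 0 := by
      intro z y hy
      rw [ht (ψ y) (by rw [Equiv.symm_apply_apply]; exact hy), zero_mul]
    have h4 := k3 c (fun x => a (ψ ⟨c, x⟩)) b (fun x => ha _) (fun z => by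
      rw [← hb z]
      have h5 := hsum c (fun y => a (ψ y) * v (e1 y.1 y.2) z) (hg z)
      simp only [Equiv.apply_symm_apply] at h5
      exact h5.symm)
    funext x
    by_cases hx : (ψ.symm x).1 = c
    · obtain ⟨y, rfl⟩ := ψ.surjective x
      rw [Equiv.symm_apply_apply] at hx
      obtain ⟨y1, y2⟩ := y
      simp only at hx
      subst hx
      exact congrFun h4 y2
    · exact ht x hx

/-- preimages of codiscrete sets -/
theorem pre_codis {v : ℂ → ℂ} (hv : Differentiable ℂ v) (hnc : ∀ c, ∃ z, v z ≠ c) {S : Set ℂ}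
    (hS : S ∈ codiscrete ℂ) : v ⁻¹' S ∈ codiscrete ℂ := by
  apply codis_of_punct
  intro x
  apply (hv.analyticAt x).preimage_of_nhdsNE
  · intro h
    rw [eventuallyConst_iff_exists_eventuallyEq] at h
    obtain ⟨c, hc⟩ := h
    obtain ⟨z, hz⟩ := hnc c
    have h1 : AnalyticOnNhd ℂ (fun z => v z - c) univ := fun z _ =>
      (hv.analyticAt z).sub analyticAt_const
    have h2 := h1.eqOn_zero_of_preconnected_of_eventuallyEq_zero isPreconnected_univ (mem_univ x)
      (by filter_upwards [hc] with y hy; rw [hy]; exact sub_self c) (mem_univ z)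
    exact hz (sub_eq_zero.1 h2)
  · exact Pool.Agent.TH143.EL.codis_punct hS (v x)

theorem lattice_codis (L : PeriodPair) : ((L.lattice : Set ℂ)ᶜ) ∈ codiscrete ℂ := by
  rw [mem_codiscrete']
  refine ⟨L.isClosed_lattice.isOpen_compl, ?_⟩
  rw [compl_compl]
  exact ⟨inferInstanceAs (DiscreteTopology L.lattice)⟩

variable {Λ : Fin q → PeriodPair} {k : Fin m → Option (Fin q)} {v : Fin m → ℂ → ℂ}

/-- the domain -/
def FrS.U (f : FrS Λ k v) : Set ℂ := {z | ∀ x, v (f.eu x) z ∉ (Λ (f.ty x)).lattice}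

theorem FrS.U_codis (f : FrS Λ k v) (hv : ∀ i, Differentiable ℂ (v i))
    (hnc : ∀ i c, ∃ z, v i z ≠ c) : f.U ∈ codiscrete ℂ := by
  have h1 : ∀ x, ∀ᶠ z in codiscrete ℂ, v (f.eu x) z ∉ (Λ (f.ty x)).lattice := fun x =>
    pre_codis (hv _) (hnc _) (lattice_codis _)
  exact eventually_all.2 h1

/-- an identity between entire functions on a nonempty open set -/
theorem ent_id {f : ℂ → ℂ} (hf : Differentiable ℂ f) {U : Set ℂ} (hU : IsOpen U)
    (hne : U.Nonempty) {b : ℂ} (h : ∀ z ∈ U, f z = b) (z : ℂ) : f z = b := by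
  obtain ⟨x, hx⟩ := hne
  have h1 : AnalyticOnNhd ℂ (fun z => f z - b) univ := fun z _ =>
    (hf.analyticAt z).sub analyticAt_const
  have h2 := h1.eqOn_zero_of_preconnected_of_eventuallyEq_zero isPreconnected_univ (mem_univ x)
    (by filter_upwards [hU.mem_nhds hx] with y hy; rw [h y hy]; exact sub_self b) (mem_univ z)
  exact sub_eq_zero.1 h2

/-- **the free families form a curve of the kind to which the theorem of Ax applies** -/
theorem FrS.fxM (f : FrS Λ k v) (hni : ∀ x y, x ≠ y → NoHom (Λ x) (Λ y))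
    (hv : ∀ i, Differentiable ℂ (v i)) (hnc : ∀ i c, ∃ z, v i z ≠ c) :
    FxM f.U Λ f.ty (fun x => v (f.eu x)) (fun x => v (f.el x)) where
  isOpen := codis_open (f.U_codis hv hnc)
  conn := codis_pre (f.U_codis hv hnc)
  ni := hni
  ua := fun i z _ => (hv _).analyticAt z
  un := fun i z hz => hz i
  ui := by
    intro c a b ha ht hb
    refine f.fu c a b (fun x => mult_mem_kL (ha x)) ht ?_
    refine ent_id (f := fun z => ∑ x, a x * v (f.eu x) z) ?_ (codis_open (f.U_codis hv hnc))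
      (codis_ne (f.U_codis hv hnc)) hb
    exact Differentiable.fun_sum fun i _ => (hv _).const_mul _
  la := fun i z _ => (hv _).analyticAt z
  li := by
    intro mm c hb
    have h1 := f.fl (fun x => (mm x : ℂ)) c (fun x => IntermediateField.intCast_mem _ _) (by
      refine ent_id (f := fun z => ∑ x, (mm x : ℂ) * v (f.el x) z) ?_
        (codis_open (f.U_codis hv hnc)) (codis_ne (f.U_codis hv hnc)) hb
      exact Differentiable.fun_sum fun i _ => (hv _).const_mul _)
    funext x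
    have h2 := congrFun h1 x
    simp only [Pi.zero_apply] at h2 ⊢
    exact_mod_cast h2

end Pool.Agent.K7.H88.EF
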