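import Pool.Agent.K7.H88.EF.Flow
import Pool.Agent.K7.H88.EF.Cur
import Pool.Agent.K7.H88.EF.Num
import Pool.Agent.K7.H88.EF.Sys
import Pool.Agent.K7.H88.EF.Cls

/-!
# Nodes at generic points
-/

set_option autoImplicit false

open Filter Topology Set MvPolynomial
open scoped PeriodPair LinearAlgebra.Projectivization

noncomputable section

namespace Pool.Agent.K7.H88.EF

open H667R3 Pool.Agent.W245.EB
open Pool.Agent.TH143.EL (Ell mero_id freq_of_ev per_int mero_an mero_ne nc_wp mero_comp_add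
  TorusMapsIn Rep InV)
open Pool.Agent.TH813.Rel (DF MK mem_DF subset_cl rk_le_of_subset_cl exists_derF)
open Pool.Agent.TH813.Ell (om om_add mem_cl_iff kL mem_kL der_kL exists_eig om_linK)
open Pool.Agent.TH813.G (NoHom)
open Pool.Agent.Y776 (lg lg_add lg_lin)
open Pool.Agent.Y776.Fam (indep_of_rank exists_den)
open Pool.Agent.Y776.Cv (FxM Gp rank_Gp yf)

variable {q m : ℕ} {Λ : Fin q → PeriodPair} {k : Fin m → Option (Fin q)} {h v : Fin m → ℂ → ℂ}
  {F : IntermediateField ℚ ℂ} {z₀ : ℂ}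

/-- logarithmic derivatives -/
def LgK (Λ : Fin q → PeriodPair) (κ : Option (Fin q)) (δ : Derivation ℚ ℂ ℂ) (a : ℂ) : ℂ :=
  κ.elim (lg δ a) fun c => om (Λ c) δ a

/-- derivations which kill the variables kill the polynomials -/
theorem der_aeval_zero {σ : Type} {δ : Derivation ℚ ℂ ℂ} (hδ : δ ∈ DF F) {y : σ → ℂ}
    (hy : ∀ o, δ (y o) = 0) (P : MvPolynomial σ F) : δ (aeval y P) = 0 := by
  induction P using MvPolynomial.induction_on with
  | C a =>
    rw [aeval_C]
    exact hδ _ a.2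
  | add p q hp hq => rw [map_add, map_add, hp, hq, add_zero]
  | mul_X p s hp => rw [map_mul, aeval_X, Derivation.leibniz, hp, hy, smul_zero, smul_zero, add_zero]

theorem per_lattice {L : PeriodPair} {g : ℂ → ℂ} (hg : g ∈ Ell L.ω₁ L.ω₂) {w : ℂ}
    (hw : w ∈ L.lattice) (z : ℂ) : g (z + w) = g z := by
  obtain ⟨a, b, rfl⟩ := PeriodPair.mem_lattice.1 hw
  exact per_int hg.2.1 hg.2.2 a b z

/-- the data at a generic point -/
structure Pt (Λ : Fin q → PeriodPair) (k : Fin m → Option (Fin q)) (h v : Fin m → ℂ → ℂ)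
    (f : FrS Λ k v) (F : IntermediateField ℚ ℂ) (R T : Fin m → MvPolynomial (Option (Fin m)) F)
    (z₀ : ℂ) : Prop where
  hni : ∀ x y, x ≠ y → NoHom (Λ x) (Λ y)
  hv : ∀ i, Differentiable ℂ (v i)
  hnc : ∀ i c, ∃ z, v i z ≠ c
  hh : ∀ i, (k i).elim (h i = Complex.exp) fun c => h i ∈ Ell (Λ c).ω₁ (Λ c).ω₂
  gp : Gp f.U Λ f.ty (fun x => v (f.eu x)) (fun x => v (f.el x)) F z₀
  an : ∀ i, AnalyticAt ℂ (h i) (v i z₀)
  dd : ∀ i, ∀ δ ∈ DF F, ∀ r, δ (iteratedDeriv r (h i) (v i z₀)) =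
    LgK Λ (k i) δ (v i z₀) * iteratedDeriv (r + 1) (h i) (v i z₀)
  hT : ∀ i, aeval (yv h v z₀) (T i) ≠ 0
  hR : ∀ i, v i z₀ * aeval (yv h v z₀) (T i) = aeval (yv h v z₀) (R i)
  g2 : ∀ c, (Λ c).g₂ ∈ F
  g3 : ∀ c, (Λ c).g₃ ∈ F
  ce : ∀ i, Complex.exp (f.c i) ∈ F
  cw : ∀ i a, ℘[Λ a] (f.c i) ∈ F

variable {f : FrS Λ k v} {R T : Fin m → MvPolynomial (Option (Fin m)) F}
  {δ : Derivation ℚ ℂ ℂ}

theorem Pt.lg_none (p : Pt Λ k h v f F R T z₀) (hδ : δ ∈ DF F) {i : Fin m} (hi : k i = none) :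
    LgK Λ (k i) δ (v i z₀) = ∑ x, (f.bl i x : ℂ) * lg δ (v (f.el x) z₀) := by
  rw [hi]
  change lg δ (v i z₀) = _
  rw [f.hvl i hi z₀, lg_add]
  have h1 : lg δ (f.c i) = 0 := by
    unfold lg
    rw [hδ _ (p.ce i), zero_div]
  rw [h1, add_zero, ← lg_lin]
  congr 1

theorem Pt.lg_some (p : Pt Λ k h v f F R T z₀) (hδ : δ ∈ DF F) {i : Fin m} {a : Fin q}
    (hi : k i = some a) :
    LgK Λ (k i) δ (v i z₀) = ∑ x, f.bu i x * om (Λ (f.ty x)) δ (v (f.eu x) z₀) := by
  rw [hi]
  change om (Λ a) δ (v i z₀) = _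
  obtain ⟨κ, hE⟩ := exists_eig (Λ a)
  rw [f.hvu i a hi z₀, om_add (Λ a) δ (hδ _ (p.g2 a)) (hδ _ (p.g3 a)),
    om_linK hE δ (hδ _ (p.g2 a)) (hδ _ (p.g3 a)) _ _ (f.hbu i a hi)]
  have h1 : om (Λ a) δ (f.c i) = 0 := by
    unfold om
    rw [hδ _ (p.cw i a), zero_div]
  rw [h1, add_zero]
  refine Finset.sum_congr rfl fun x _ => ?_
  by_cases hx : f.ty x = a
  · rw [hx]
  · rw [f.hbt i a hi x hx, zero_mul, zero_mul]

theorem Pt.lg_zero (p : Pt Λ k h v f F R T z₀) (hδ : δ ∈ DF F)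
    (h1 : ∀ x, lg δ (v (f.el x) z₀) = 0)
    (h2 : ∀ x, om (Λ (f.ty x)) δ (v (f.eu x) z₀) = 0) (i : Fin m) :
    LgK Λ (k i) δ (v i z₀) = 0 := by
  cases hi : k i with
  | none =>
    rw [← hi, p.lg_none hδ hi]
    exact Finset.sum_eq_zero fun x _ => by rw [h1, mul_zero]
  | some a =>
    rw [← hi, p.lg_some hδ hi]
    exact Finset.sum_eq_zero fun x _ => by rw [h2, mul_zero]

theorem Pt.dy (p : Pt Λ k h v f F R T z₀) (hδ : δ ∈ DF F) (i : Fin m) :
    δ (yv h v z₀ (some i)) =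
      LgK Λ (k i) δ (v i z₀) * iteratedDeriv 1 (h i) (v i z₀) := by
  have h1 := p.dd i δ hδ 0
  rw [iteratedDeriv_zero] at h1
  exact h1

theorem Pt.kill (p : Pt Λ k h v f F R T z₀) (hδ : δ ∈ DF F) (hz : δ z₀ = 0)
    (h1 : ∀ x, lg δ (v (f.el x) z₀) = 0)
    (h2 : ∀ x, om (Λ (f.ty x)) δ (v (f.eu x) z₀) = 0) (i : Fin m) : δ (v i z₀) = 0 := by
  have hy : ∀ o, δ (yv h v z₀ o) = 0 := by
    intro o
    cases o with
    | none => exact hz
    | some i => rw [p.dy hδ, p.lg_zero hδ h1 h2, zero_mul]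
  have h3 := congrArg δ (p.hR i)
  rw [der_aeval_zero hδ hy, Derivation.leibniz, der_aeval_zero hδ hy, smul_zero, zero_add,
    smul_eq_mul] at h3
  exact (mul_eq_zero.1 h3).resolve_left (p.hT i)

/-- **derivations with prescribed logarithmic derivatives** -/
theorem Pt.exists_der (p : Pt Λ k h v f F R T z₀) (w : Fin f.s → ℂ) (w' : Fin f.n → ℂ) :
    ∃ δ ∈ DF F, δ z₀ = 0 ∧ (∀ x, lg δ (v (f.el x) z₀) = w x) ∧
      ∀ x, om (Λ (f.ty x)) δ (v (f.eu x) z₀) = w' x := by
  classical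
  rcases Nat.eq_zero_or_pos (f.s + f.n) with h0 | h0
  · refine ⟨0, (DF F).zero_mem, rfl, fun x => ?_, fun x => ?_⟩
    · exact absurd x.2 (by omega)
    · exact absurd x.2 (by omega)
  · let g : Option (Fin f.s ⊕ (Fin f.n ⊕ Fin f.n)) → ℂ := fun o => o.elim z₀
      (Sum.elim (fun x => Complex.exp (v (f.el x) z₀))
        (Sum.elim (fun x => ℘[Λ (f.ty x)] (v (f.eu x) z₀))
          (fun x => zeta (Λ (f.ty x)) (v (f.eu x) z₀))))
    have hg0 : z₀ ∈ Set.range g := ⟨none, rfl⟩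
    have hg1 : ∀ x, Complex.exp (v (f.el x) z₀) ∈ Set.range g := fun x => ⟨some (Sum.inl x), rfl⟩
    have hg2 : ∀ x, ℘[Λ (f.ty x)] (v (f.eu x) z₀) ∈ Set.range g := fun x =>
      ⟨some (Sum.inr (Sum.inl x)), rfl⟩
    have hg3 : ∀ x, zeta (Λ (f.ty x)) (v (f.eu x) z₀) ∈ Set.range g := fun x =>
      ⟨some (Sum.inr (Sum.inr x)), rfl⟩
    have hv' : ∀ i, v i z₀ ∈ (MK F).closure (Set.range g) := by
      intro i
      rw [mem_cl_iff]
      intro D hD hk
      refine p.kill hD (hk _ hg0) (fun x => ?_) (fun x => ?_) i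
      · unfold lg
        rw [hk _ (hg1 x), zero_div]
      · unfold om
        rw [hk _ (hg2 x), zero_div]
    have hsub : Set.range (fun i => yf Λ f.ty (fun x => v (f.eu x)) (fun x => v (f.el x)) i z₀) ⊆
        (MK F).closure (Set.range g) := by
      rintro _ ⟨x | x | x | x | x, rfl⟩
      · exact hv' _
      · exact subset_cl _ (hg1 x)
      · exact hv' _
      · exact subset_cl _ (hg3 x)
      · exact subset_cl _ (hg2 x)
    have hr := (rank_Gp (f.fxM p.hni p.hv p.hnc) h0 p.g2 p.g3 p.gp).trans (rk_le_of_subset_cl hsub)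
    have hind : AlgebraicIndependent F g := by
      apply indep_of_rank
      refine le_trans (le_of_eq ?_) hr
      congr 1
      simp only [Fintype.card_option, Fintype.card_sum, Fintype.card_fin]
      ring
    obtain ⟨δ, hδ, hD⟩ := exists_derF F hind (fun o => o.elim 0
      (Sum.elim (fun x => w x * Complex.exp (v (f.el x) z₀))
        (Sum.elim (fun x => w' x * ℘'[Λ (f.ty x)] (v (f.eu x) z₀)) (fun _ => 0))))
    refine ⟨δ, hδ, hD none, fun x => ?_, fun x => ?_⟩
    · have h1 : δ (Complex.exp (v (f.el x) z₀)) = w x * Complex.exp (v (f.el x) z₀) :=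
        hD (some (Sum.inl x))
      unfold lg
      rw [h1, mul_div_assoc, div_self (Complex.exp_ne_zero _), mul_one]
    · have h1 : δ (℘[Λ (f.ty x)] (v (f.eu x) z₀)) = w' x * ℘'[Λ (f.ty x)] (v (f.eu x) z₀) :=
        hD (some (Sum.inr (Sum.inl x)))
      unfold om
      rw [h1, mul_div_assoc, div_self (wp'_ne_zero _ (p.gp.two x)), mul_one]

/-- the elliptic flows -/
theorem Pt.efl_u (p : Pt Λ k h v f F R T z₀) (x : Fin f.n) (hδ : δ ∈ DF F) (hz : δ z₀ = 0)
    (h1 : ∀ x, lg δ (v (f.el x) z₀) = 0)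
    (h2 : ∀ x', om (Λ (f.ty x')) δ (v (f.eu x') z₀) = if x' = x then 1 else 0) :
    EFl F (yv h v z₀) δ := by
  classical
  set c := f.ty x with hc
  let B : Fin m → ℂ := fun i => if k i = none then 0 else f.bu i x
  have hB : ∀ i, LgK Λ (k i) δ (v i z₀) = B i := by
    intro i
    cases hi : k i with
    | none =>
      rw [← hi, p.lg_none hδ hi]
      simp only [B, if_pos hi]
      exact Finset.sum_eq_zero fun x _ => by rw [h1, mul_zero]
    | some a =>
      rw [← hi, p.lg_some hδ hi]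
      have hn : ¬ k i = none := by rw [hi]; exact Option.some_ne_none a
      simp only [B, if_neg hn, h2]
      rw [Finset.sum_eq_single x]
      · rw [if_pos rfl, mul_one]
      · intro y _ hy
        rw [if_neg hy, mul_zero]
      · intro hx
        exact absurd (Finset.mem_univ x) hx
  have hB0 : ∀ i, k i ≠ some c → B i = 0 := by
    intro i hi
    by_cases hn : k i = none
    · simp only [B, if_pos hn]
    · obtain ⟨a, ha⟩ := Option.ne_none_iff_exists'.1 hn
      simp only [B, if_neg hn]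
      apply f.hbt i a ha
      intro hx
      apply hi
      rw [ha, ← hx]
  have hBm : ∀ i, B i ∈ kL (Λ c) := by
    intro i
    by_cases hi : k i = some c
    · have hn : ¬ k i = none := by rw [hi]; exact Option.some_ne_none c
      simp only [B, if_neg hn]
      exact f.hbu i c hi x
    · rw [hB0 i hi]
      exact zero_mem _
  have hBk : ∀ i, δ (B i) = 0 := fun i => der_kL δ (hBm i)
  choose n hn0 hn using fun i => mem_kL.1 (hBm i)
  set M : ℕ := ∏ i, n i with hM
  have hM0 : 0 < M := Finset.prod_pos fun i _ => hn0 i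
  have hM0' : (M : ℂ) ≠ 0 := by exact_mod_cast hM0.ne'
  have hMB : ∀ i, ∀ w ∈ (Λ c).lattice, B i * (M * w) ∈ (Λ c).lattice := by
    intro i w hw
    obtain ⟨r, hr⟩ : n i ∣ M := Finset.dvd_prod_of_mem _ (Finset.mem_univ i)
    have h3 : r • ((n i : ℂ) * B i * w) ∈ (Λ c).lattice := nsmul_mem (hn i w hw) r
    have h4 : B i * (M * w) = r • ((n i : ℂ) * B i * w) := by
      rw [nsmul_eq_mul, hr]
      push_cast
      ring
    rw [h4]
    exact h3
  let H : Option (Fin m) → ℂ → ℂ := fun o τ => o.elim z₀ fun i => h i (v i z₀ + B i * τ)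
  have hH0 : ∀ o, H o 0 = yv h v z₀ o := by
    intro o
    cases o with
    | none => rfl
    | some i =>
      change h i (v i z₀ + B i * 0) = h i (v i z₀)
      rw [mul_zero, add_zero]
  have hFl : ∀ o, Fl δ (H o) := by
    intro o
    cases o with
    | none => exact Fl.const hz
    | some i =>
      exact Fl.line (p.an i) (hBk i) fun r => by rw [p.dd i δ hδ r, hB]
  have hmer : ∀ i, Meromorphic (h i) := by
    intro i
    have h3 := p.hh i
    cases hi : k i with
    | none =>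
      rw [hi] at h3
      have h4 : h i = Complex.exp := h3
      rw [h4]
      exact mero_ent Complex.differentiable_exp
    | some a =>
      rw [hi] at h3
      exact h3.1
  have hmH : ∀ o, Meromorphic (H o) := by
    intro o
    cases o with
    | none => exact Meromorphic.const z₀
    | some i => exact mero_comp_ent (u := fun τ => v i z₀ + B i * τ) (hmer i) (by fun_prop)
  have hper : ∀ w ∈ (Λ c).lattice, ∀ o z, H o (z + M * w) = H o z := by
    intro w hw o z
    cases o with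
    | none => rfl
    | some i =>
      change h i (v i z₀ + B i * (z + M * w)) = h i (v i z₀ + B i * z)
      by_cases hi : k i = some c
      · have h3 := p.hh i
        rw [hi] at h3
        have h4 : v i z₀ + B i * (z + M * w) = v i z₀ + B i * z + B i * (M * w) := by ring
        rw [h4]
        exact per_lattice h3 (hMB i w hw) _
      · rw [hB0 i hi, zero_mul, zero_mul]
  refine ⟨M * (Λ c).ω₁, M * (Λ c).ω₂, H, 0, 1, ?_, one_ne_zero, hmH,
    hper _ (Λ c).ω₁_mem_lattice, hper _ (Λ c).ω₂_mem_lattice, fun o => (hFl o).1, hH0,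
    fun o => ?_, fun P hP => ?_⟩
  · have h3 := LinearIndependent.pair_iff.1 (Λ c).indep
    rw [LinearIndependent.pair_iff]
    intro a b hab
    have h4 := h3 (M * a) (M * b) (by
      rw [← hab]
      simp only [Complex.real_smul]
      push_cast
      ring)
    have h5 : (M : ℝ) ≠ 0 := by exact_mod_cast hM0.ne'
    exact ⟨(mul_eq_zero.1 h4.1).resolve_left h5, (mul_eq_zero.1 h4.2).resolve_left h5⟩
  · rw [(hFl o).deriv_eq, hH0, one_mul]
  · have h3 := flow hδ hFl P (by
      have h4 : (fun o => H o 0) = yv h v z₀ := funext hH0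
      rw [h4]
      exact hP)
    exact mero_id (mero_aeval hmH P) (freq_of_ev h3)

end Pool.Agent.K7.H88.EF
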