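import Pool.Agent.K7.H88.EF.Gen

/-!
# Nodes at generic points, continued
-/

set_option autoImplicit false

open Filter Topology Set MvPolynomial
open scoped PeriodPair LinearAlgebra.Projectivization

noncomputable section

namespace Pool.Agent.K7.H88.EF

open H667R3 Pool.Agent.W245.EB
open Pool.Agent.TH143.EL (Ell mero_id freq_of_ev per_int mero_an mero_ne nc_wp mero_comp_add
  TorusMapsIn Rep InV)
open Pool.Agent.TH813.Core (der_sum)
open Pool.Agent.TH813.Rel (DF MK mem_DF subset_cl rk_le_of_subset_cl exists_derF)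
open Pool.Agent.TH813.Ell (om mem_cl_iff kL mem_kL der_kL exists_eig om_linK)
open Pool.Agent.Y776 (lg lg_add lg_lin)
open Pool.Agent.Y776.Fam (indep_of_rank exists_den)

variable {q m : ℕ} {Λ : Fin q → PeriodPair} {k : Fin m → Option (Fin q)} {h v : Fin m → ℂ → ℂ}
  {F : IntermediateField ℚ ℂ} {z₀ : ℂ} {f : FrS Λ k v}
  {R T : Fin m → MvPolynomial (Option (Fin m)) F} {δ : Derivation ℚ ℂ ℂ}

/-- a point where the function of Weierstrass can be used as a coordinate -/
theorem exists_t (L : PeriodPair) : ∃ t : ℂ, AnalyticAt ℂ ℘[L] t ∧ ℘[L] t ≠ 0 ∧ t ∉ L.lattice ∧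
    2 * t ∉ L.lattice := by
  have h1 : ∀ᶠ t in codiscrete ℂ, t ∉ L.lattice := lattice_codis L
  have h2 : ∀ᶠ t in codiscrete ℂ, 2 * t ∉ L.lattice :=
    pre_codis (v := fun t => 2 * t) (by fun_prop) (fun c => ⟨c / 2 + 1, by
      intro h
      have : (2 : ℂ) = 0 := by linear_combination h
      exact two_ne_zero this⟩) (lattice_codis L)
  have h3 := mero_ne L.meromorphic_weierstrassP (fun h => nc_wp L ⟨0, h⟩)
  obtain ⟨t, e1, e2, e3, e4⟩ := (h1.and (h2.and (h3.and (mero_an L.meromorphic_weierstrassP)))).exists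
  exact ⟨t, e4, e3, e1, e2⟩

/-- the flows along the exponential functions -/
theorem Pt.efl_l (p : Pt Λ k h v f F R T z₀) (x : Fin f.s) (hδ : δ ∈ DF F) (hz : δ z₀ = 0)
    (h1 : ∀ x', lg δ (v (f.el x') z₀) = if x' = x then 1 else 0)
    (h2 : ∀ x', om (Λ (f.ty x')) δ (v (f.eu x') z₀) = 0) :
    EFl F (yv h v z₀) δ := by
  classical
  let b : Fin m → ℚ := fun i => if k i = none then f.bl i x else 0
  have hB : ∀ i, LgK Λ (k i) δ (v i z₀) = (b i : ℂ) := by
    intro i
    cases hi : k i with
    | none =>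
      rw [← hi, p.lg_none hδ hi]
      simp only [b, if_pos hi, h1]
      rw [Finset.sum_eq_single x]
      · rw [if_pos rfl, mul_one]
      · intro y _ hy
        rw [if_neg hy, mul_zero]
      · intro hx
        exact absurd (Finset.mem_univ x) hx
    | some a =>
      rw [← hi, p.lg_some hδ hi]
      have hn : ¬ k i = none := by rw [hi]; exact Option.some_ne_none a
      simp only [b, if_neg hn, Rat.cast_zero]
      exact Finset.sum_eq_zero fun x _ => by rw [h2, mul_zero]
  have hb0 : ∀ i, k i ≠ none → b i = 0 := fun i hi => by simp only [b, if_neg hi]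
  have hBk : ∀ i, δ ((b i : ℚ) : ℂ) = 0 := by
    intro i
    have h3 := δ.map_algebraMap (b i)
    rwa [eq_ratCast] at h3
  obtain ⟨D, hD0, n, hn⟩ := exists_den b
  have hn' : ∀ i, ((n i : ℤ) : ℂ) = (D : ℂ) * ((b i : ℚ) : ℂ) := by
    intro i
    exact_mod_cast congrArg (fun t : ℚ => (t : ℂ)) (hn i)
  have hDc : (D : ℂ) ≠ 0 := by exact_mod_cast hD0.ne'
  have hexp : ∀ i, k i = none → h i = Complex.exp := by
    intro i hi
    have h3 := p.hh i
    rw [hi] at h3
    exact h3
  have hn0 : ∀ i, k i ≠ none → n i = 0 := by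
    intro i hi
    have h3 := hn i
    rw [hb0 i hi, mul_zero] at h3
    exact_mod_cast h3
  let H₀ : Option (Fin m) → ℂ → ℂ := fun o τ => o.elim z₀ fun i => h i (v i z₀ + (b i : ℂ) * τ)
  have hH0 : ∀ o, H₀ o 0 = yv h v z₀ o := by
    intro o
    cases o with
    | none => rfl
    | some i =>
      change h i (v i z₀ + (b i : ℂ) * 0) = h i (v i z₀)
      rw [mul_zero, add_zero]
  have hFl : ∀ o, Fl δ (H₀ o) := by
    intro o
    cases o with
    | none => exact Fl.const hz
    | some i =>
      exact Fl.line (p.an i) (hBk i) fun r => by rw [p.dd i δ hδ r, hB]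
  have hd : ∀ o, Differentiable ℂ (H₀ o) := by
    intro o
    cases o with
    | none => exact differentiable_const z₀
    | some i =>
      by_cases hi : k i = none
      · have h3 : H₀ (some i) = fun τ => Complex.exp (v i z₀ + (b i : ℂ) * τ) := by
          funext τ
          change h i _ = _
          rw [hexp i hi]
        rw [h3]
        fun_prop
      · have h3 : H₀ (some i) = fun _ => h i (v i z₀) := by
          funext τ
          change h i (v i z₀ + (b i : ℂ) * τ) = _
          rw [hb0 i hi, Rat.cast_zero, zero_mul, add_zero]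
        rw [h3]
        exact differentiable_const _
  have hall : ∀ P : MvPolynomial (Option (Fin m)) F, aeval (yv h v z₀) P = 0 →
      ∀ τ, aeval (fun o => H₀ o τ) P = 0 := by
    intro P hP τ
    have h3 := flow hδ hFl P (by
      have h4 : (fun o => H₀ o 0) = yv h v z₀ := funext hH0
      rw [h4]
      exact hP)
    have h4 : AnalyticOnNhd ℂ (fun τ => aeval (fun o => H₀ o τ) P) univ := fun τ _ =>
      an_aeval (fun o => (hd o).analyticAt τ) P
    exact h4.eqOn_zero_of_preconnected_of_eventuallyEq_zero isPreconnected_univ (mem_univ 0) h3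
      (mem_univ τ)
  have hind : LinearIndependent ℝ ![(1 : ℂ), Complex.I] := by
    rw [LinearIndependent.pair_iff]
    intro s t h
    have h1 := congrArg Complex.re h
    have h2 := congrArg Complex.im h
    simp at h1 h2
    exact ⟨h1, h2⟩
  let L : PeriodPair := ⟨1, Complex.I, hind⟩
  obtain ⟨t₀, e1, e2, e3, e4⟩ := exists_t L
  let X : ℂ → ℂ := fun t => ℘[L] t / ℘[L] t₀
  have hX0 : X t₀ = 1 := div_self e2
  have hXm : Meromorphic X := L.meromorphic_weierstrassP.div (Meromorphic.const _)
  have hXa : AnalyticAt ℂ X t₀ := e1.div analyticAt_const e2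
  have hXd : HasDerivAt X (℘'[L] t₀ / ℘[L] t₀) t₀ :=
    (hasDerivAt_weierstrassP L e3).div_const _
  have hne : ℘'[L] t₀ ≠ 0 := wp'_ne_zero L e4
  have hXp : ∀ w ∈ L.lattice, ∀ z, X (z + w) = X z := fun w hw z => by
    simp only [X]
    rw [per_lattice (wp_ell L) hw]
  have hXne : ∀ᶠ t in codiscrete ℂ, X t ≠ 0 := by
    apply mero_ne hXm
    intro h3
    apply nc_wp L
    refine ⟨0, ?_⟩
    filter_upwards [h3] with t ht
    exact (div_eq_zero_iff.1 ht).resolve_right e2
  let H : Option (Fin m) → ℂ → ℂ := fun o t => o.elim z₀ fun i => h i (v i z₀) * X t ^ n i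
  have hHH : ∀ t, X t ≠ 0 → ∃ τ, ∀ o, H o t = H₀ o τ := by
    intro t ht
    refine ⟨D * Complex.log (X t), fun o => ?_⟩
    cases o with
    | none => rfl
    | some i =>
      change h i (v i z₀) * X t ^ n i = h i (v i z₀ + (b i : ℂ) * (D * Complex.log (X t)))
      by_cases hi : k i = none
      · rw [hexp i hi, Complex.exp_add]
        congr 1
        have h3 : (b i : ℂ) * (D * Complex.log (X t)) = (n i : ℤ) * Complex.log (X t) := by
          rw [hn']
          ring
        rw [h3, Complex.exp_int_mul, Complex.exp_log ht]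
      · rw [hn0 i hi, hb0 i hi, zpow_zero, mul_one, Rat.cast_zero, zero_mul, add_zero]
  have hmH : ∀ o, Meromorphic (H o) := by
    intro o
    cases o with
    | none => exact Meromorphic.const z₀
    | some i => exact (Meromorphic.const _).mul (fun z => (hXm z).zpow (n i))
  refine ⟨1, Complex.I, H, t₀, D * (℘'[L] t₀ / ℘[L] t₀), hind,
    mul_ne_zero hDc (div_ne_zero hne e2), hmH, fun o z => ?_, fun o z => ?_, fun o => ?_,
    fun o => ?_, fun o => ?_, fun P hP => ?_⟩
  · cases o with
    | none => rfl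
    | some i =>
      change h i (v i z₀) * X (z + 1) ^ n i = h i (v i z₀) * X z ^ n i
      rw [hXp 1 L.ω₁_mem_lattice]
  · cases o with
    | none => rfl
    | some i =>
      change h i (v i z₀) * X (z + Complex.I) ^ n i = h i (v i z₀) * X z ^ n i
      rw [hXp Complex.I L.ω₂_mem_lattice]
  · cases o with
    | none => exact analyticAt_const
    | some i => exact analyticAt_const.mul (hXa.zpow (by rw [hX0]; exact one_ne_zero))
  · cases o with
    | none => rfl
    | some i =>
      change h i (v i z₀) * X t₀ ^ n i = h i (v i z₀)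
      rw [hX0, one_zpow, mul_one]
  · cases o with
    | none =>
      change deriv (fun _ => z₀) t₀ = _ * δ z₀
      rw [hz, mul_zero, deriv_const]
    | some i =>
      have h3 : HasDerivAt (fun t => h i (v i z₀) * X t ^ n i)
          (h i (v i z₀) * ((n i : ℂ) * X t₀ ^ (n i - 1) * (℘'[L] t₀ / ℘[L] t₀))) t₀ :=
        ((hasDerivAt_zpow (n i) (X t₀) (Or.inl (by rw [hX0]; exact one_ne_zero))).comp t₀
          hXd).const_mul _
      change deriv (fun t => h i (v i z₀) * X t ^ n i) t₀ = _
      rw [h3.deriv, p.dy hδ, hB, hX0, one_zpow, hn']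
      by_cases hi : k i = none
      · have h5 : iteratedDeriv 1 (h i) (v i z₀) = h i (v i z₀) := by
          rw [hexp i hi, iteratedDeriv_one, Complex.deriv_exp]
        rw [h5]
        ring
      · rw [hb0 i hi, Rat.cast_zero]
        ring
  · filter_upwards [hXne] with t ht
    obtain ⟨τ, hτ⟩ := hHH t ht
    have h3 : (fun o => H o t) = fun o => H₀ o τ := funext hτ
    rw [h3]
    exact hall P hP τ

/-- **the alternative at a generic point** -/
theorem Pt.alt {N : ℕ} {I I' : Ideal (MvPolynomial (Fin (N + 1)) ℂ)} (hT : TorusMapsIn I I')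
    {S : Finset (MvPolynomial (Fin (N + 1)) F)}
    (hS : ∀ w : Fin (N + 1) → ℂ, (∀ G ∈ I, (∃ d, G.IsHomogeneous d) → eval w G = 0) ↔
      ∀ G ∈ S, aeval w G = 0) (p : Pt Λ k h v f F R T z₀)
    (A : Fin (N + 1) → MvPolynomial (Option (Fin m)) F)
    (hA0 : (fun a => aeval (yv h v z₀) (A a)) ≠ 0)
    (hAI : ∀ G ∈ S, aeval (fun a => aeval (yv h v z₀) (A a)) G = 0) :
    (∀ pt, Rep pt (fun a => aeval (yv h v z₀) (A a)) → InV I' pt) ∨
      ∀ a b, aeval (yv h v z₀) (A b) ≠ 0 → ¬ AlgebraicIndependent F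
        ![z₀, aeval (yv h v z₀) (A a) / aeval (yv h v z₀) (A b)] := by
  classical
  by_cases hgoal : ∀ pt, Rep pt (fun a => aeval (yv h v z₀) (A a)) → InV I' pt
  · exact Or.inl hgoal
  right
  choose δl l1 l2 l3 l4 using fun x : Fin f.s =>
    p.exists_der (fun x' => if x' = x then 1 else 0) (fun _ => 0)
  choose δu u1 u2 u3 u4 using fun x : Fin f.n =>
    p.exists_der (fun _ => 0) (fun x' => if x' = x then 1 else 0)
  have hl : ∀ x a b, δl x (aeval (yv h v z₀) (A a)) * aeval (yv h v z₀) (A b) =
      aeval (yv h v z₀) (A a) * δl x (aeval (yv h v z₀) (A b)) := fun x =>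
    (step_torus hT hS (l1 x) (p.efl_l x (l1 x) (l2 x) (l3 x) (l4 x)) A hA0 hAI).resolve_left hgoal
  have hu : ∀ x a b, δu x (aeval (yv h v z₀) (A a)) * aeval (yv h v z₀) (A b) =
      aeval (yv h v z₀) (A a) * δu x (aeval (yv h v z₀) (A b)) := fun x =>
    (step_torus hT hS (u1 x) (p.efl_u x (u1 x) (u2 x) (u3 x) (u4 x)) A hA0 hAI).resolve_left hgoal
  -- all derivations
  have hall : ∀ δ ∈ DF F, δ z₀ = 0 → ∀ P : MvPolynomial (Option (Fin m)) F,
      δ (aeval (yv h v z₀) P) = ∑ x, lg δ (v (f.el x) z₀) * δl x (aeval (yv h v z₀) P) +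
        ∑ x, om (Λ (f.ty x)) δ (v (f.eu x) z₀) * δu x (aeval (yv h v z₀) P) := by
    intro δ hδ hz P
    let E : Derivation ℚ ℂ ℂ := δ - (∑ x, lg δ (v (f.el x) z₀) • δl x +
      ∑ x, om (Λ (f.ty x)) δ (v (f.eu x) z₀) • δu x)
    have hE : E ∈ DF F := (DF F).sub_mem hδ ((DF F).add_mem
      (sum_mem fun x _ => (DF F).smul_mem _ (l1 x)) (sum_mem fun x _ => (DF F).smul_mem _ (u1 x)))
    have hEa : ∀ y, E y = δ y - (∑ x, lg δ (v (f.el x) z₀) * δl x y +
        ∑ x, om (Λ (f.ty x)) δ (v (f.eu x) z₀) * δu x y) := by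
      intro y
      change (δ - _ : Derivation ℚ ℂ ℂ) y = _
      rw [Derivation.sub_apply, Derivation.add_apply, der_sum, der_sum]
    have h3 : ∀ o, E (yv h v z₀ o) = 0 := by
      intro o
      rw [hEa]
      cases o with
      | none =>
        change δ z₀ - (∑ x, _ * δl x z₀ + ∑ x, _ * δu x z₀) = 0
        simp only [hz, l2, u2, mul_zero, Finset.sum_const_zero, add_zero, sub_zero]
      | some i =>
        rw [p.dy hδ]
        simp only [p.dy (l1 _), p.dy (u1 _)]
        cases hi : k i with
        | none =>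
          rw [← hi, p.lg_none hδ hi]
          simp only [p.lg_none (l1 _) hi, p.lg_none (u1 _) hi, l3, u3]
          simp only [mul_zero, Finset.sum_const_zero, zero_mul, add_zero, mul_ite, mul_one,
            Finset.sum_ite_eq', Finset.mem_univ, if_true]
          rw [Finset.sum_mul, sub_eq_zero]
          exact Finset.sum_congr rfl fun x _ => by ring
        | some a =>
          rw [← hi, p.lg_some hδ hi]
          simp only [p.lg_some (l1 _) hi, p.lg_some (u1 _) hi, l4, u4]
          simp only [mul_zero, Finset.sum_const_zero, zero_mul, zero_add, mul_ite, mul_one,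
            Finset.sum_ite_eq', Finset.mem_univ, if_true]
          rw [Finset.sum_mul, sub_eq_zero]
          exact Finset.sum_congr rfl fun x _ => by ring
    have h4 := der_aeval_zero hE h3 P
    rw [hEa] at h4
    exact sub_eq_zero.1 h4
  intro a b hb hind
  obtain ⟨δ, hδ, hD⟩ := exists_derF F hind ![0, 1]
  have hz : δ z₀ = 0 := hD 0
  have h1 : δ (aeval (yv h v z₀) (A a) / aeval (yv h v z₀) (A b)) = 1 := hD 1
  have h2 : δ (aeval (yv h v z₀) (A a)) * aeval (yv h v z₀) (A b) =
      aeval (yv h v z₀) (A a) * δ (aeval (yv h v z₀) (A b)) := by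
    rw [hall δ hδ hz, hall δ hδ hz, add_mul, mul_add, Finset.sum_mul, Finset.sum_mul,
      Finset.mul_sum, Finset.mul_sum]
    congr 1
    · refine Finset.sum_congr rfl fun x _ => ?_
      have := hl x a b
      linear_combination lg δ (v (f.el x) z₀) * this
    · refine Finset.sum_congr rfl fun x _ => ?_
      have := hu x a b
      linear_combination om (Λ (f.ty x)) δ (v (f.eu x) z₀) * this
  have h3 : aeval (yv h v z₀) (A a) =
      aeval (yv h v z₀) (A a) / aeval (yv h v z₀) (A b) * aeval (yv h v z₀) (A b) :=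
    (div_mul_cancel₀ _ hb).symm
  have h4 := congrArg δ h3
  rw [Derivation.leibniz, h1, smul_eq_mul, smul_eq_mul, mul_one] at h4
  have h5 : aeval (yv h v z₀) (A b) * aeval (yv h v z₀) (A b) = 0 := by
    have h6 : aeval (yv h v z₀) (A a) / aeval (yv h v z₀) (A b) *
        δ (aeval (yv h v z₀) (A b)) * aeval (yv h v z₀) (A b) =
        aeval (yv h v z₀) (A a) * δ (aeval (yv h v z₀) (A b)) := by
      field_simp
    have h7 := congrArg (· * aeval (yv h v z₀) (A b)) h4
    simp only [add_mul] at h7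
    rw [h6, h2] at h7
    linear_combination -h7
  exact hb (mul_self_eq_zero.1 h5)

end Pool.Agent.K7.H88.EF
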